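import Mathlib

/-!
# The angle equation of the bicycle

`α' = c sin α - κ`, where `c = 1 / ℓ` and `κ ≥ 0` is the curvature of the front track.
-/

open Set MeasureTheory

namespace Pool.Agent.Q140.Bike

/-- If `u' ≤ K u` wherever `u > 0`, then `u ≤ 0` is preserved. -/
theorem le_zero_of {u u' : ℝ → ℝ} {K : ℝ} (hu : ∀ t, HasDerivAt u (u' t) t)
    {s t : ℝ} (hst : s ≤ t) (h : ∀ τ ∈ Icc s t, 0 < u τ → u' τ ≤ K * u τ) (hs : u s ≤ 0) :
    u t ≤ 0 := by
  by_contra hcon
  push Not at hcon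
  have hc : Continuous u := continuous_iff_continuousAt.2 fun t => (hu t).continuousAt
  -- last point where `u ≤ 0`
  set A : Set ℝ := {τ | τ ∈ Icc s t ∧ u τ ≤ 0} with hA
  have hAne : A.Nonempty := ⟨s, ⟨le_rfl, hst⟩, hs⟩
  have hAcl : IsClosed A := isClosed_Icc.inter (isClosed_le hc continuous_const)
  have hAb : BddAbove A := ⟨t, fun x hx => hx.1.2⟩
  set m := sSup A with hm
  have hmA : m ∈ A := hAcl.csSup_mem hAne hAb
  have hmt : m < t := lt_of_le_of_ne hmA.1.2 (fun h => by
    rw [h] at hmA; exact absurd hmA.2 (not_le.2 hcon))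
  have hpos : ∀ τ ∈ Ioc m t, 0 < u τ := by
    intro τ hτ
    by_contra hn
    push Not at hn
    have : τ ∈ A := ⟨⟨hmA.1.1.trans hτ.1.le, hτ.2⟩, hn⟩
    exact absurd (le_csSup hAb this) (not_le.2 hτ.1)
  have hanti : AntitoneOn (fun τ => u τ * Real.exp (-K * τ)) (Icc m t) := by
    apply antitoneOn_of_deriv_nonpos (convex_Icc m t)
    · exact (hc.mul (by fun_prop)).continuousOn
    · intro τ _
      exact ((hu τ).differentiableAt.mul (by fun_prop)).differentiableWithinAt
    · intro τ hτ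
      rw [interior_Icc] at hτ
      have hd : HasDerivAt (fun τ => u τ * Real.exp (-K * τ))
          (u' τ * Real.exp (-K * τ) + u τ * (Real.exp (-K * τ) * (-K))) τ := by
        apply (hu τ).mul
        have := ((hasDerivAt_id τ).const_mul (-K)).exp
        simpa using this
      rw [hd.deriv]
      have h1 := h τ ⟨hmA.1.1.trans hτ.1.le, hτ.2.le⟩ (hpos τ ⟨hτ.1, hτ.2.le⟩)
      have h2 := Real.exp_pos (-K * τ)
      nlinarith
  have h3 := hanti ⟨le_rfl, hmt.le⟩ ⟨hmt.le, le_rfl⟩ hmt.le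
  simp only at h3
  have h4 := Real.exp_pos (-K * t)
  have h5 := Real.exp_pos (-K * m)
  have h6 := hmA.2
  nlinarith [mul_pos hcon h4, mul_nonneg (neg_nonneg.2 h6) h5.le]

/-- If `u' ≤ - K u` wherever `u < 0`, then `u < 0` is preserved. -/
theorem lt_zero_of {u u' : ℝ → ℝ} {K : ℝ} (hu : ∀ t, HasDerivAt u (u' t) t)
    {s t : ℝ} (hst : s ≤ t) (h : ∀ τ ∈ Icc s t, u τ < 0 → u' τ ≤ -K * u τ) (hs : u s < 0) :
    u t < 0 := by
  by_contra hcon
  push Not at hcon
  have hc : Continuous u := continuous_iff_continuousAt.2 fun t => (hu t).continuousAt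
  -- first point where `u ≥ 0`
  set A : Set ℝ := {τ | τ ∈ Icc s t ∧ 0 ≤ u τ} with hA
  have hAne : A.Nonempty := ⟨t, ⟨hst, le_rfl⟩, hcon⟩
  have hAcl : IsClosed A := isClosed_Icc.inter (isClosed_le continuous_const hc)
  have hAb : BddBelow A := ⟨s, fun x hx => hx.1.1⟩
  set m := sInf A with hm
  have hmA : m ∈ A := hAcl.csInf_mem hAne hAb
  have hms : s < m := lt_of_le_of_ne hmA.1.1 (fun h => by
    rw [← h] at hmA; exact absurd hmA.2 (not_le.2 hs))
  have hneg : ∀ τ ∈ Ico s m, u τ < 0 := by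
    intro τ hτ
    by_contra hn
    push Not at hn
    have : τ ∈ A := ⟨⟨hτ.1, hτ.2.le.trans hmA.1.2⟩, hn⟩
    exact absurd (csInf_le hAb this) (not_le.2 hτ.2)
  have hanti : AntitoneOn (fun τ => u τ * Real.exp (K * τ)) (Icc s m) := by
    apply antitoneOn_of_deriv_nonpos (convex_Icc s m)
    · exact (hc.mul (by fun_prop)).continuousOn
    · intro τ _
      exact ((hu τ).differentiableAt.mul (by fun_prop)).differentiableWithinAt
    · intro τ hτ
      rw [interior_Icc] at hτ
      have hd : HasDerivAt (fun τ => u τ * Real.exp (K * τ))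
          (u' τ * Real.exp (K * τ) + u τ * (Real.exp (K * τ) * K)) τ := by
        apply (hu τ).mul
        have := ((hasDerivAt_id τ).const_mul K).exp
        simpa using this
      rw [hd.deriv]
      have h1 := h τ ⟨hτ.1.le, hτ.2.le.trans hmA.1.2⟩ (hneg τ ⟨hτ.1.le, hτ.2⟩)
      have h2 := Real.exp_pos (K * τ)
      nlinarith
  have h3 := hanti ⟨le_rfl, hms.le⟩ ⟨hms.le, le_rfl⟩ hms.le
  simp only at h3
  have h4 := Real.exp_pos (K * s)
  have h5 := Real.exp_pos (K * m)
  have h6 := hmA.2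
  nlinarith [mul_pos (neg_pos.2 hs) h4, mul_nonneg h6 h5.le]

/-- Data of a convex front track: `φ` is the tangent angle, `κ` the curvature. -/
structure Front (L : ℝ) (φ κ : ℝ → ℝ) : Prop where
  pos : 0 < L
  deriv : ∀ t, HasDerivAt φ (κ t) t
  nonneg : ∀ t, 0 ≤ κ t
  strict : StrictMono φ
  per : ∀ t, φ (t + L) = φ t + 2 * Real.pi
  cos0 : ∫ t in (0 : ℝ)..L, Real.cos (φ t) = 0
  sin0 : ∫ t in (0 : ℝ)..L, Real.sin (φ t) = 0

variable {L : ℝ} {φ κ : ℝ → ℝ}

theorem sin_sub_int (α : ℝ) (m : ℤ) : |Real.sin α| = |Real.sin (α - m * Real.pi)| := by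
  rw [Real.sin_sub_int_mul_pi]
  rcases Int.even_or_odd m with h | h
  · rw [h.neg_one_zpow, one_mul]
  · rw [h.neg_one_zpow, neg_one_mul, abs_neg]

section crossing

variable (hF : Front L φ κ) {c : ℝ} {α : ℝ → ℝ}
  (hα : ∀ t, HasDerivAt α (c * Real.sin (α t) - κ t) t)

include hF hα

/-- `α` crosses multiples of `π` only downwards. -/
theorem cross_le (hc : 0 < c) {s t : ℝ} (hst : s ≤ t) {m : ℤ} (hs : α s ≤ m * Real.pi) :
    α t ≤ m * Real.pi := by
  have := le_zero_of (u := fun t => α t - m * Real.pi) (K := c)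
    (fun t => (hα t).sub_const _) hst (fun τ _ hτ => by
      have h1 : Real.sin (α τ) ≤ α τ - m * Real.pi := by
        calc Real.sin (α τ) ≤ |Real.sin (α τ)| := le_abs_self _
          _ = |Real.sin (α τ - m * Real.pi)| := sin_sub_int _ _
          _ ≤ |α τ - m * Real.pi| := Real.abs_sin_le_abs
          _ = α τ - m * Real.pi := abs_of_pos hτ
      have h2 := hF.nonneg τ
      nlinarith) (by simpa using hs)
  simpa using this

theorem cross_lt (hc : 0 < c) {s t : ℝ} (hst : s ≤ t) {m : ℤ} (hs : α s < m * Real.pi) :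
    α t < m * Real.pi := by
  have := lt_zero_of (u := fun t => α t - m * Real.pi) (K := c)
    (fun t => (hα t).sub_const _) hst (fun τ _ hτ => by
      have h1 : Real.sin (α τ) ≤ -(α τ - m * Real.pi) := by
        calc Real.sin (α τ) ≤ |Real.sin (α τ)| := le_abs_self _
          _ = |Real.sin (α τ - m * Real.pi)| := sin_sub_int _ _
          _ ≤ |α τ - m * Real.pi| := Real.abs_sin_le_abs
          _ = -(α τ - m * Real.pi) := abs_of_neg hτ
      have h2 := hF.nonneg τ
      nlinarith) (by simpa using hs)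
  simpa using this

/-- Strict form. -/
theorem cross (hc : 0 < c) {s t : ℝ} (hst : s < t) {m : ℤ} (hs : α s ≤ m * Real.pi) :
    α t < m * Real.pi := by
  by_contra hcon
  push Not at hcon
  have hconst : ∀ τ ∈ Icc s t, α τ = m * Real.pi := by
    intro τ hτ
    apply le_antisymm (cross_le hF hα hc hτ.1 hs)
    by_contra hn
    push Not at hn
    exact absurd (cross_lt hF hα hc hτ.2 hn) (not_lt.2 hcon)
  have hκ : ∀ τ ∈ Ioo s t, κ τ = 0 := by
    intro τ hτ
    have h1 : α =ᶠ[nhds τ] fun _ => m * Real.pi := by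
      filter_upwards [Ioo_mem_nhds hτ.1 hτ.2] with x hx
      exact hconst x ⟨hx.1.le, hx.2.le⟩
    have h2 := (hα τ).congr_of_eventuallyEq h1.symm
    have h3 := h2.unique (hasDerivAt_const τ _)
    rw [hconst τ ⟨hτ.1.le, hτ.2.le⟩, Real.sin_int_mul_pi] at h3
    linarith
  have hφ : φ t = φ s := by
    have hcφ : Continuous φ := continuous_iff_continuousAt.2 fun t => (hF.deriv t).continuousAt
    obtain ⟨x, hx, hxe⟩ := exists_hasDerivAt_eq_slope φ κ hst hcφ.continuousOn
      (fun x _ => hF.deriv x)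
    rw [hκ x hx] at hxe
    have h5 : (0 : ℝ) < t - s := by linarith
    have h6 := (eq_div_iff h5.ne').1 hxe
    linarith
  have := hF.strict hst
  linarith

end crossing

end Pool.Agent.Q140.Bike
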