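import Pool.Agent.Q140.Bike.Lift

/-!
# The transition of the bicycle monodromy from hyperbolic to elliptic
-/

open Set MeasureTheory Matrix

namespace Pool.Agent.Q140.Bike

theorem dir_ne (x : ℝ) : dir x ≠ 0 := by
  intro h
  have h0 := congrFun h 0
  have h1 := congrFun h 1
  simp [dir] at h0 h1
  have := Real.sin_sq_add_cos_sq (x / 2)
  rw [h0, h1] at this
  norm_num at this

theorem char_eq {M : SpecialLinearGroup (Fin 2) ℝ} {lam : ℝ} {v : Fin 2 → ℝ} (hv : v ≠ 0)
    (h : (M : Matrix (Fin 2) (Fin 2) ℝ) *ᵥ v = lam • v) :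
    lam ^ 2 - (M : Matrix (Fin 2) (Fin 2) ℝ).trace * lam + 1 = 0 := by
  have h1 : ((M : Matrix (Fin 2) (Fin 2) ℝ) - lam • (1 : Matrix (Fin 2) (Fin 2) ℝ)).det = 0 := by
    rw [← Matrix.exists_mulVec_eq_zero_iff]
    refine ⟨v, hv, ?_⟩
    rw [Matrix.sub_mulVec, h, Matrix.smul_mulVec, Matrix.one_mulVec, sub_self]
  have h2 := M.det_coe
  rw [Matrix.det_fin_two] at h1 h2
  rw [Matrix.trace_fin_two]
  simp at h1
  linear_combination h1 - h2 + 2 * (h2 - h2)

/-- The direction of a closed solution is an eigendirection. -/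
theorem dir_add (x : ℝ) (k : ℤ) : ∃ s : ℝ, s ≠ 0 ∧ dir (x + k * (2 * Real.pi)) = s • dir x := by
  have e : (x + k * (2 * Real.pi)) / 2 = x / 2 + k * Real.pi := by ring
  refine ⟨(-1 : ℝ) ^ k, zpow_ne_zero _ (by norm_num), ?_⟩
  ext i
  fin_cases i
  · simp [dir, e, Real.cos_add_int_mul_pi]
  · simp [dir, e, Real.sin_add_int_mul_pi]

theorem eig_of_closed {X Y : ℝ → ℝ} {L l : ℝ} {M : SpecialLinearGroup (Fin 2) ℝ}
    (hM : IsLift X Y L l M) {θ : ℝ → ℝ} (hθ : Steering X Y l θ) {k : ℤ}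
    (hk : θ L = θ 0 + k * (2 * Real.pi)) :
    ∃ lam : ℝ, (M : Matrix (Fin 2) (Fin 2) ℝ) *ᵥ dir (θ 0) = lam • dir (θ 0) := by
  obtain ⟨r, -, hr⟩ := hM.lift θ hθ
  obtain ⟨s, -, hs⟩ := dir_add (θ 0) k
  refine ⟨r * s, ?_⟩
  rw [hr, hk, hs, smul_smul]

theorem closed_of_par {x y : ℝ} {a : ℝ} (_ha : a ≠ 0) (h : a • dir x = dir y ∨ dir x = a • dir y) :
    ∃ k : ℤ, y = x + k * (2 * Real.pi) := by
  have h2 : Real.sin ((y - x) / 2) = 0 := by
    rw [sub_div, Real.sin_sub]
    rcases h with h | h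
    · have h0 := congrFun h 0
      have h1 := congrFun h 1
      simp [dir] at h0 h1
      rw [← h0, ← h1]; ring
    · have h0 := congrFun h 0
      have h1 := congrFun h 1
      simp [dir] at h0 h1
      rw [h0, h1]; ring
  obtain ⟨k, hk⟩ := Real.sin_eq_zero_iff.1 h2
  exact ⟨k, by linarith⟩

/-- Real eigenvalues give closed solutions. -/
theorem closed_of_trace {X Y : ℝ → ℝ} {L l : ℝ} {M : SpecialLinearGroup (Fin 2) ℝ}
    (hM : IsLift X Y L l M) (ht : 2 ≤ |(M : Matrix (Fin 2) (Fin 2) ℝ).trace|) :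
    ∃ θ, Steering X Y l θ ∧ ∃ k : ℤ, θ L = θ 0 + k * (2 * Real.pi) := by
  set t := (M : Matrix (Fin 2) (Fin 2) ℝ).trace with htd
  have ht2 : 0 ≤ t ^ 2 - 4 := by
    have := pow_le_pow_left₀ (by norm_num : (0 : ℝ) ≤ 2) ht 2
    rw [sq_abs] at this
    linarith
  set lam := (t + Real.sqrt (t ^ 2 - 4)) / 2 with hlam
  have hl : lam ^ 2 - t * lam + 1 = 0 := by
    have := Real.sq_sqrt ht2
    rw [hlam]
    linear_combination (1 / 4) * this
  have hlam0 : lam ≠ 0 := by
    intro h0; rw [h0] at hl; norm_num at hl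
  have h1 : ((M : Matrix (Fin 2) (Fin 2) ℝ) - lam • (1 : Matrix (Fin 2) (Fin 2) ℝ)).det = 0 := by
    have h2 := M.det_coe
    rw [Matrix.det_fin_two] at h2 ⊢
    rw [htd, Matrix.trace_fin_two] at hl
    simp
    linear_combination hl + h2
  obtain ⟨v, hv, hMv⟩ := Matrix.exists_mulVec_eq_zero_iff.2 h1
  rw [Matrix.sub_mulVec, Matrix.smul_mulVec, Matrix.one_mulVec, sub_eq_zero] at hMv
  -- normalise `v`
  set z : ℂ := ⟨v 0, v 1⟩ with hz
  have hz0 : z ≠ 0 := by
    intro h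
    apply hv
    ext i
    fin_cases i
    · simpa [hz] using congrArg Complex.re h
    · simpa [hz] using congrArg Complex.im h
  set x := 2 * Complex.arg z with hx
  have hvd : v = ‖z‖ • dir x := by
    have hn : ‖z‖ ≠ 0 := norm_ne_zero_iff.2 hz0
    ext i
    fin_cases i
    · simp only [dir, hx]
      simp
      rfl
    · simp only [dir, hx]
      simp
      rfl
  have hn : ‖z‖ ≠ 0 := norm_ne_zero_iff.2 hz0
  have hMd : (M : Matrix (Fin 2) (Fin 2) ℝ) *ᵥ dir x = lam • dir x := by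
    rw [hvd, Matrix.mulVec_smul, smul_comm] at hMv
    exact smul_right_injective _ hn hMv
  obtain ⟨θ, hθ, h0⟩ := hM.exists_sol x
  obtain ⟨r, hr0, hr⟩ := hM.lift θ hθ
  refine ⟨θ, hθ, ?_⟩
  rw [h0, hMd] at hr
  rw [h0]
  apply closed_of_par (a := r⁻¹ * lam) (mul_ne_zero (inv_ne_zero hr0) hlam0)
  left
  rw [← smul_smul, hr, smul_smul, inv_mul_cancel₀ hr0, one_smul]

variable {L : ℝ} {X Y φ κ : ℝ → ℝ}

theorem hasClosed_iff (hφ : ∀ t, deriv X t = Real.cos (φ t) ∧ deriv Y t = Real.sin (φ t))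
    {l : ℝ} : HasClosed L φ l⁻¹ ↔
      ∃ θ, Steering X Y l θ ∧ ∃ k : ℤ, θ L = θ 0 + k * (2 * Real.pi) := by
  constructor
  · rintro ⟨θ, hθ, k, hk⟩
    refine ⟨fun t => θ t - Real.pi, ?_, k, by simp only [hk]; ring⟩
    rw [steering_iff hφ]
    simpa [Sol] using hθ
  · rintro ⟨θ, hθ, k, hk⟩
    exact ⟨fun t => θ t + Real.pi, (steering_iff hφ).1 hθ, k, by simp only [hk]; ring⟩

/-- If there is no closed solution, the monodromy is elliptic. -/
theorem elliptic_of (hF : Front L φ κ) (hκ : Continuous κ)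
    (hφ : ∀ t, deriv X t = Real.cos (φ t) ∧ deriv Y t = Real.sin (φ t))
    {l : ℝ} (hl : 0 < l) (h : ¬ HasClosed L φ l⁻¹) : Elliptic X Y L l := by
  obtain ⟨M, hM⟩ := exists_lift hF hκ hφ hl
  refine ⟨M, hM, ?_⟩
  by_contra hn
  push Not at hn
  exact h ((hasClosed_iff hφ).2 (closed_of_trace hM hn))

/-- If there is a closed solution for `l₁`, then the monodromy is hyperbolic for `l < l₁`. -/
theorem hyperbolic_of (hF : Front L φ κ) (hκ : Continuous κ)
    (hφ : ∀ t, deriv X t = Real.cos (φ t) ∧ deriv Y t = Real.sin (φ t))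
    {l l₁ : ℝ} (hl : 0 < l) (hll : l < l₁) (h : HasClosed L φ l₁⁻¹) : Hyperbolic X Y L l := by
  have hpi := Real.pi_pos
  obtain ⟨M, hM⟩ := exists_lift hF hκ hφ hl
  refine ⟨M, hM, ?_⟩
  obtain ⟨a, b, c, ha, hb, hc, ha1, hb1, hab, hba, hc1, hc2⟩ := three_of_closed hF hκ
    (inv_pos.2 (hl.trans hll)) (inv_strictAnti₀ hl hll) h
  have tr : ∀ θ, Sol φ l⁻¹ θ → Steering X Y l (fun t => θ t - Real.pi) := by
    intro θ hθ
    rw [steering_iff hφ]
    simpa [Sol] using hθ
  obtain ⟨la, hla⟩ := eig_of_closed hM (tr a ha) (k := 1) (by rw [ha1]; push_cast; ring)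
  obtain ⟨lb, hlb⟩ := eig_of_closed hM (tr b hb) (k := 1) (by rw [hb1]; push_cast; ring)
  have ca := char_eq (dir_ne _) hla
  have cb := char_eq (dir_ne _) hlb
  set t := (M : Matrix (Fin 2) (Fin 2) ℝ).trace with ht
  have hne : la ≠ lb := by
    intro heq
    subst heq
    -- then `M` is a multiple of the identity
    set xa := a 0 - Real.pi with hxa
    set xb := b 0 - Real.pi with hxb
    have hdet : Real.sin ((xb - xa) / 2) ≠ 0 := by
      apply (Real.sin_pos_of_pos_of_lt_pi _ _).ne'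
      · rw [hxa, hxb]; linarith
      · rw [hxa, hxb]; linarith
    have hall : ∀ v : Fin 2 → ℝ, (M : Matrix (Fin 2) (Fin 2) ℝ) *ᵥ v = la • v := by
      intro v
      -- `v` is a combination of the two eigenvectors
      have hcomb : Real.sin ((xb - xa) / 2) • v =
          (v 0 * Real.sin (xb / 2) - v 1 * Real.cos (xb / 2)) • dir xa +
          (v 1 * Real.cos (xa / 2) - v 0 * Real.sin (xa / 2)) • dir xb := by
        rw [sub_div, Real.sin_sub]
        ext i
        fin_cases i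
        · simp [dir]; ring
        · simp [dir]; ring
      have h3 : Real.sin ((xb - xa) / 2) • ((M : Matrix (Fin 2) (Fin 2) ℝ) *ᵥ v) =
          Real.sin ((xb - xa) / 2) • (la • v) := by
        rw [← Matrix.mulVec_smul, smul_comm _ la, hcomb, Matrix.mulVec_add, Matrix.mulVec_smul,
          Matrix.mulVec_smul, hla, hlb, smul_add, smul_comm la, smul_comm la]
      exact smul_right_injective _ hdet h3
    obtain ⟨r, hr0, hr⟩ := hM.lift _ (tr c hc)
    rw [hall] at hr
    have hla0 : la ≠ 0 := by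
      intro h0; rw [h0] at ca; norm_num at ca
    obtain ⟨k, hk⟩ := closed_of_par (x := c 0 - Real.pi) (y := c L - Real.pi) (a := r⁻¹ * la)
      (mul_ne_zero (inv_ne_zero hr0) hla0) (by
        left
        rw [← smul_smul, hr, smul_smul, inv_mul_cancel₀ hr0, one_smul])
    have hk2 : c L - c 0 - 2 * Real.pi = (k - 1) * (2 * Real.pi) := by linarith
    rw [hk2] at hc1 hc2
    have h5 : (0 : ℝ) < k - 1 := by
      by_contra hn
      push Not at hn
      nlinarith
    have h6 : (k : ℝ) - 1 < 1 := by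
      by_contra hn
      push Not at hn
      nlinarith
    have h7 : 1 < k := by exact_mod_cast (by linarith : (1 : ℝ) < k)
    have h8 : k < 2 := by exact_mod_cast (by linarith : (k : ℝ) < 2)
    omega
  have hsum : la + lb = t := by
    have h4 : (la - lb) * (la + lb - t) = 0 := by linear_combination ca - cb
    rcases mul_eq_zero.1 h4 with h5 | h5
    · exact absurd (sub_eq_zero.1 h5) hne
    · linarith
  have hprod : la * lb = 1 := by
    rw [← hsum] at ca
    linarith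
  have hsq : (2 : ℝ) ^ 2 < |t| ^ 2 := by
    rw [sq_abs, ← hsum]
    have : 0 < (la - lb) ^ 2 := by
      have := sub_ne_zero.2 hne
      positivity
    nlinarith
  exact lt_of_pow_lt_pow_left₀ 2 (abs_nonneg _) hsq

/-- The transition theorem. -/
theorem transition (h : ConvexTrack L X Y) :
    ∃ l₀ : ℝ, 0 < l₀ ∧ (∀ l, 0 < l → l < l₀ → Hyperbolic X Y L l) ∧
      ∀ l, l₀ < l → Elliptic X Y L l := by
  obtain ⟨φ, hF, hφ⟩ := h.exists_angle
  have hκ := h.curv_cont
  have hpi := Real.pi_pos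
  have hL := h.pos
  set S : Set ℝ := {l | 0 < l ∧ HasClosed L φ l⁻¹} with hS
  obtain ⟨K, hK0, hK⟩ := hF.exists_bound hκ
  have hmem : (K + 1)⁻¹ ∈ S := by
    refine ⟨by positivity, ?_⟩
    rw [inv_inv]
    exact closed_of_large hF hκ (by linarith) (fun t => by linarith [hK t])
  have hbdd : BddAbove S := by
    refine ⟨L / (2 * Real.pi), ?_⟩
    rintro l ⟨hl, hcl⟩
    have := closed_bound hF (inv_pos.2 hl) hcl
    rw [le_div_iff₀ (by positivity)]
    rw [inv_mul_eq_div, le_div_iff₀ hl] at this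
    linarith
  refine ⟨sSup S, ?_, ?_, ?_⟩
  · exact lt_of_lt_of_le hmem.1 (le_csSup hbdd hmem)
  · intro l hl hlt
    obtain ⟨l₁, hl₁, hll⟩ := exists_lt_of_lt_csSup ⟨_, hmem⟩ hlt
    exact hyperbolic_of hF hκ hφ hl hll hl₁.2
  · intro l hlt
    have hl : 0 < l := (lt_of_lt_of_le hmem.1 (le_csSup hbdd hmem)).trans hlt
    apply elliptic_of hF hκ hφ hl
    intro hcl
    exact absurd (le_csSup hbdd ⟨hl, hcl⟩) (not_le.2 hlt)

end Pool.Agent.Q140.Bike
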