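import Pool.Agent.Q140.Bike.RotOne
import Pool.Agent.Q140.Tor.Support

/-!
# Strictly convex front tracks and their tangent angle
-/

open Set MeasureTheory
open scoped ContDiff

namespace Pool.Agent.Q140.Bike

/-- A front track: `Γ = (X, Y)` is a smooth unit-speed `L`-periodic simple closed curve, and it is
the boundary of a compact strictly convex region `K`, which lies to the left of `Γ` (so that `Γ`
is oriented counterclockwise). -/
structure ConvexTrack (L : ℝ) (X Y : ℝ → ℝ) : Prop where
  pos : 0 < L
  smooth_X : ContDiff ℝ ∞ X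
  smooth_Y : ContDiff ℝ ∞ Y
  periodic_X : ∀ t, X (t + L) = X t
  periodic_Y : ∀ t, Y (t + L) = Y t
  unit_speed : ∀ t, deriv X t ^ 2 + deriv Y t ^ 2 = 1
  simple : ∀ s t, X s = X t → Y s = Y t → ∃ k : ℤ, t = s + k * L
  region : ∃ K : Set (ℝ × ℝ), IsCompact K ∧ StrictConvex ℝ K ∧
    frontier K = Set.range (fun t => (X t, Y t)) ∧
    ∀ t, ∀ x ∈ K, 0 ≤ deriv X t * (x.2 - Y t) - deriv Y t * (x.1 - X t)

namespace ConvexTrack

variable {L : ℝ} {X Y : ℝ → ℝ} (h : ConvexTrack L X Y)

include h

/-- The curve lies strictly to the left of its tangent lines. -/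
theorem left {s t : ℝ} (hne : ∀ k : ℤ, t ≠ s + k * L) :
    0 < deriv X s * (Y t - Y s) - deriv Y s * (X t - X s) := by
  obtain ⟨K, hKc, hKs, hKf, hKl⟩ := h.region
  have hmem : ∀ t, (X t, Y t) ∈ K := by
    intro t
    apply hKc.isClosed.frontier_subset
    rw [hKf]
    exact ⟨t, rfl⟩
  have hPQ : (X s, Y s) ≠ (X t, Y t) := by
    intro he
    obtain ⟨k, hk⟩ := h.simple s t (congrArg Prod.fst he) (congrArg Prod.snd he)
    exact hne k hk
  have hmid := hKs (hmem s) (hmem t) hPQ (by norm_num : (0 : ℝ) < 1 / 2)
    (by norm_num : (0 : ℝ) < 1 / 2) (by norm_num)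
  simp only [Prod.smul_mk, smul_eq_mul, Prod.mk_add_mk] at hmid
  set m : ℝ × ℝ := (1 / 2 * X s + 1 / 2 * X t, 1 / 2 * Y s + 1 / 2 * Y t) with hm
  by_contra hcon
  push Not at hcon
  -- move from the midpoint in the direction of decrease
  have hc : Continuous (fun ε : ℝ => (m.1 + ε * deriv Y s, m.2 - ε * deriv X s)) := by fun_prop
  have hev : ∀ᶠ ε in nhds (0 : ℝ), (m.1 + ε * deriv Y s, m.2 - ε * deriv X s) ∈ K := by
    have : (fun ε : ℝ => (m.1 + ε * deriv Y s, m.2 - ε * deriv X s)) ⁻¹' (interior K) ∈
        nhds (0 : ℝ) := by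
      apply hc.continuousAt.preimage_mem_nhds
      simp only [zero_mul, add_zero, sub_zero, Prod.mk.eta]
      exact isOpen_interior.mem_nhds hmid
    filter_upwards [this] with ε hε
    exact interior_subset hε
  obtain ⟨δ, hδ, hball⟩ := Metric.eventually_nhds_iff.1 hev
  have h1 := hball (y := δ / 2) (by rw [Real.dist_eq, sub_zero, abs_of_pos] <;> linarith)
  have h2 := hKl s _ h1
  have h3 := h.unit_speed s
  simp only [hm] at h2
  nlinarith

theorem dX (t : ℝ) : HasDerivAt X (deriv X t) t :=
  (h.smooth_X.differentiable (by simp) t).hasDerivAt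

theorem dY (t : ℝ) : HasDerivAt Y (deriv Y t) t :=
  (h.smooth_Y.differentiable (by simp) t).hasDerivAt

theorem ddX (t : ℝ) : HasDerivAt (deriv X) (deriv (deriv X) t) t :=
  ((contDiff_infty_iff_deriv.1 h.smooth_X).2.differentiable (by simp) t).hasDerivAt

theorem ddY (t : ℝ) : HasDerivAt (deriv Y) (deriv (deriv Y) t) t :=
  ((contDiff_infty_iff_deriv.1 h.smooth_Y).2.differentiable (by simp) t).hasDerivAt

theorem orth (t : ℝ) : deriv X t * deriv (deriv X) t + deriv Y t * deriv (deriv Y) t = 0 := by
  have h1 := ((h.ddX t).pow 2).add ((h.ddY t).pow 2)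
  have h2 : (fun t => deriv X t ^ 2 + deriv Y t ^ 2) = fun _ => (1 : ℝ) := funext h.unit_speed
  have h3 : HasDerivAt (fun t => deriv X t ^ 2 + deriv Y t ^ 2) _ t := h1
  rw [h2] at h3
  have h4 := h3.unique (hasDerivAt_const t (1 : ℝ))
  norm_num at h4
  linarith

omit h in
/-- The curvature. -/
noncomputable def curv (X Y : ℝ → ℝ) (t : ℝ) : ℝ :=
  deriv X t * deriv (deriv Y) t - deriv Y t * deriv (deriv X) t

theorem curv_cont : Continuous (curv X Y) := by
  have h1 := (contDiff_infty_iff_deriv.1 h.smooth_X).2
  have h2 := (contDiff_infty_iff_deriv.1 h.smooth_Y).2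
  have h3 := (contDiff_infty_iff_deriv.1 h1).2
  have h4 := (contDiff_infty_iff_deriv.1 h2).2
  exact (h1.continuous.mul h4.continuous).sub (h2.continuous.mul h3.continuous)

theorem ddX_eq (t : ℝ) : deriv (deriv X) t = - curv X Y t * deriv Y t := by
  have h1 := h.orth t
  have h2 := h.unit_speed t
  unfold curv
  linear_combination (deriv X t) * h1 - deriv (deriv X) t * h2

theorem ddY_eq (t : ℝ) : deriv (deriv Y) t = curv X Y t * deriv X t := by
  have h1 := h.orth t
  have h2 := h.unit_speed t
  unfold curv
  linear_combination (deriv Y t) * h1 - deriv (deriv Y) t * h2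

theorem curv_nonneg (s : ℝ) : 0 ≤ curv X Y s := by
  -- height over the tangent line at `s`
  set f : ℝ → ℝ := fun u => -(deriv X s * (Y (s + u) - Y s) - deriv Y s * (X (s + u) - X s)) with hf
  have hfd : ∀ u, HasDerivAt f (-(deriv X s * deriv Y (s + u) - deriv Y s * deriv X (s + u))) u := by
    intro u
    have h1 := HasDerivAt.comp_const_add s u (h.dY (s + u))
    have h2 := HasDerivAt.comp_const_add s u (h.dX (s + u))
    exact (((h1.sub_const (Y s)).const_mul (deriv X s)).sub
      ((h2.sub_const (X s)).const_mul (deriv Y s))).neg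
  have hle : ∀ u, f u ≤ f 0 := by
    intro u
    have h0 : f 0 = 0 := by simp [hf]
    rw [h0]
    by_cases hu : ∃ k : ℤ, s + u = s + k * L
    · obtain ⟨k, hk⟩ := hu
      have hX : X (s + u) = X s := by
        rw [hk]
        exact Function.Periodic.int_mul (f := X) h.periodic_X k s
      have hY : Y (s + u) = Y s := by
        rw [hk]
        exact Function.Periodic.int_mul (f := Y) h.periodic_Y k s
      simp [hf, hX, hY]
    · push Not at hu
      have := h.left hu
      simp only [hf]
      linarith
  have hmax : IsLocalMax f 0 := Filter.Eventually.of_forall hle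
  have h2 := Pool.Agent.Q140.Tor.second_deriv_nonpos (fun u => (hfd u).differentiableAt) hmax
  have e1 : deriv f = fun u => -(deriv X s * deriv Y (s + u) - deriv Y s * deriv X (s + u)) :=
    funext fun u => (hfd u).deriv
  have e2 : HasDerivAt (fun u => -(deriv X s * deriv Y (s + u) - deriv Y s * deriv X (s + u)))
      (-(deriv X s * deriv (deriv Y) (s + 0) - deriv Y s * deriv (deriv X) (s + 0))) 0 := by
    have h1 := HasDerivAt.comp_const_add s 0 (h.ddY (s + 0))
    have h2 := HasDerivAt.comp_const_add s 0 (h.ddX (s + 0))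
    exact ((h1.const_mul (deriv X s)).sub (h2.const_mul (deriv Y s))).neg
  rw [e1, e2.deriv] at h2
  simp only [add_zero] at h2
  unfold curv
  linarith

/-- Existence of the tangent angle. -/
theorem exists_angle : ∃ φ : ℝ → ℝ, Front L φ (curv X Y) ∧
    ∀ t, deriv X t = Real.cos (φ t) ∧ deriv Y t = Real.sin (φ t) := by
  have hpi := Real.pi_pos
  have hκc := h.curv_cont
  obtain ⟨φ0, hφ0c, hφ0s⟩ : ∃ φ0, deriv X 0 = Real.cos φ0 ∧ deriv Y 0 = Real.sin φ0 := by
    set z : ℂ := ⟨deriv X 0, deriv Y 0⟩ with hz
    have hn : ‖z‖ = 1 := by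
      have h1 := h.unit_speed 0
      rw [Complex.norm_eq_sqrt_sq_add_sq]
      simp only [hz]
      rw [h1, Real.sqrt_one]
    have hz0 : z ≠ 0 := by intro h0; rw [h0] at hn; simp at hn
    refine ⟨Complex.arg z, ?_, ?_⟩
    · rw [Complex.cos_arg hz0, hn, div_one]
    · rw [Complex.sin_arg, hn, div_one]
  set φ : ℝ → ℝ := fun t => φ0 + ∫ s in (0 : ℝ)..t, curv X Y s with hφ
  have hφd : ∀ t, HasDerivAt φ (curv X Y t) t := fun t =>
    (intervalIntegral.integral_hasDerivAt_right (hκc.intervalIntegrable 0 t)
      (hκc.stronglyMeasurableAtFilter _ _) hκc.continuousAt).const_add φ0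
  have hφ0 : φ 0 = φ0 := by simp [hφ]
  -- `(cos φ, sin φ) = (X', Y')`
  have hc1 : ∀ t, Real.cos (φ t) * deriv X t + Real.sin (φ t) * deriv Y t = 1 := by
    have hd : ∀ t, HasDerivAt (fun t => Real.cos (φ t) * deriv X t + Real.sin (φ t) * deriv Y t)
        0 t := by
      intro t
      have h1 := ((hφd t).cos.mul (h.ddX t)).add ((hφd t).sin.mul (h.ddY t))
      refine HasDerivAt.congr_deriv h1 ?_
      rw [h.ddX_eq, h.ddY_eq]
      ring
    intro t
    have := is_const_of_deriv_eq_zero (f := fun t => Real.cos (φ t) * deriv X t +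
      Real.sin (φ t) * deriv Y t) (fun t => (hd t).differentiableAt) (fun t => (hd t).deriv) t 0
    rw [this, hφ0, ← hφ0c, ← hφ0s]
    have := h.unit_speed 0
    linarith
  have hXY : ∀ t, deriv X t = Real.cos (φ t) ∧ deriv Y t = Real.sin (φ t) := by
    intro t
    have h1 := hc1 t
    have h2 := h.unit_speed t
    have h3 := Real.sin_sq_add_cos_sq (φ t)
    have h4 : (deriv X t - Real.cos (φ t)) ^ 2 + (deriv Y t - Real.sin (φ t)) ^ 2 = 0 := by
      nlinarith
    constructor
    · have : (deriv X t - Real.cos (φ t)) ^ 2 = 0 := by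
        nlinarith [sq_nonneg (deriv X t - Real.cos (φ t)), sq_nonneg (deriv Y t - Real.sin (φ t))]
      have := pow_eq_zero_iff (two_ne_zero) |>.1 this
      linarith
    · have : (deriv Y t - Real.sin (φ t)) ^ 2 = 0 := by
        nlinarith [sq_nonneg (deriv X t - Real.cos (φ t)), sq_nonneg (deriv Y t - Real.sin (φ t))]
      have := pow_eq_zero_iff (two_ne_zero) |>.1 this
      linarith
  have hmono : Monotone φ := monotone_of_deriv_nonneg (fun t => (hφd t).differentiableAt)
    (fun t => by rw [(hφd t).deriv]; exact h.curv_nonneg t)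
  have hφc : Continuous φ := continuous_iff_continuousAt.2 fun t => (hφd t).continuousAt
  have hL := h.pos
  have hstrict : StrictMono φ := by
    intro s t hst
    apply lt_of_le_of_ne (hmono hst.le)
    intro heq
    set t' := min t (s + L / 2) with ht'
    have hst' : s < t' := lt_min hst (by linarith)
    have ht't : t' ≤ t := min_le_left _ _
    have ht'L : t' ≤ s + L / 2 := min_le_right _ _
    have hcst : ∀ τ ∈ Icc s t', φ τ = φ s := by
      intro τ hτ
      apply le_antisymm
      · rw [heq]; exact hmono (hτ.2.trans ht't)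
      · exact hmono hτ.1
    have hne : ∀ k : ℤ, t' ≠ s + k * L := by
      intro k hk
      have h1 : 0 < (k : ℝ) * L := by linarith
      have h2 : (k : ℝ) * L < L := by linarith
      have h3 : (0 : ℝ) < k := by
        by_contra hn
        push Not at hn
        nlinarith
      have h4 : (k : ℝ) < 1 := by
        by_contra hn
        push Not at hn
        nlinarith
      have h5 : 0 < k := by exact_mod_cast h3
      have h6 : k < 1 := by exact_mod_cast h4
      omega
    have hpos := h.left hne
    obtain ⟨x, hx, hxe⟩ := exists_hasDerivAt_eq_slope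
      (fun u => deriv X s * (Y u - Y s) - deriv Y s * (X u - X s))
      (fun u => deriv X s * deriv Y u - deriv Y s * deriv X u) hst'
      (by
        have h1 := h.smooth_X.continuous
        have h2 := h.smooth_Y.continuous
        fun_prop)
      (fun u _ => (((h.dY u).sub_const (Y s)).const_mul (deriv X s)).sub
        (((h.dX u).sub_const (X s)).const_mul (deriv Y s)))
    rw [(hXY x).1, (hXY x).2, hcst x ⟨hx.1.le, hx.2.le⟩, (hXY s).1, (hXY s).2] at hxe
    rw [(hXY s).1, (hXY s).2] at hpos
    have h5 : (0 : ℝ) < t' - s := by linarith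
    have h6 := (eq_div_iff h5.ne').1 hxe
    simp only [sub_self, mul_zero, sub_zero] at h6
    have h7 : (Real.cos (φ s) * Real.sin (φ s) - Real.sin (φ s) * Real.cos (φ s)) = 0 := by ring
    rw [h7, zero_mul] at h6
    linarith
  -- total turning
  have hperdX : ∀ t, deriv X (t + L) = deriv X t := by
    intro t
    rw [← deriv_comp_add_const]
    congr 1
    funext s
    exact h.periodic_X s
  have hperdY : ∀ t, deriv Y (t + L) = deriv Y t := by
    intro t
    rw [← deriv_comp_add_const]
    congr 1
    funext s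
    exact h.periodic_Y s
  have hperκ : ∀ t, curv X Y (t + L) = curv X Y t := by
    intro t
    have e1 : deriv (deriv X) (t + L) = deriv (deriv X) t := by
      rw [← deriv_comp_add_const]
      congr 1
      funext s
      exact hperdX s
    have e2 : deriv (deriv Y) (t + L) = deriv (deriv Y) t := by
      rw [← deriv_comp_add_const]
      congr 1
      funext s
      exact hperdY s
    unfold curv
    rw [hperdX, hperdY, e1, e2]
  have hconst : ∀ t, φ (t + L) - φ t = φ L - φ 0 := by
    intro t
    have hd : ∀ t, HasDerivAt (fun t => φ (t + L) - φ t) 0 t := by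
      intro t
      have h1 := (HasDerivAt.comp_add_const t L (hφd (t + L))).sub (hφd t)
      rwa [hperκ, sub_self] at h1
    have := is_const_of_deriv_eq_zero (f := fun t => φ (t + L) - φ t)
      (fun t => (hd t).differentiableAt) (fun t => (hd t).deriv) t 0
    simpa using this
  obtain ⟨m, hm⟩ : ∃ m : ℤ, φ L - φ 0 = 2 * Real.pi * m := by
    have e1 : Real.cos (φ L) = Real.cos (φ 0) := by
      rw [← (hXY L).1, ← (hXY 0).1]
      have := hperdX 0; rwa [zero_add] at this
    have e2 : Real.sin (φ L) = Real.sin (φ 0) := by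
      rw [← (hXY L).2, ← (hXY 0).2]
      have := hperdY 0; rwa [zero_add] at this
    exact Real.Angle.angle_eq_iff_two_pi_dvd_sub.1 (Real.Angle.cos_sin_inj e1 e2)
  have hm0 : 0 < m := by
    have h1 := hstrict hL
    have h2 : (0 : ℝ) < 2 * Real.pi * m := by linarith
    have h3 : (0 : ℝ) < m := by
      by_contra hn
      push Not at hn
      nlinarith
    exact_mod_cast h3
  have hm1 : m = 1 := by
    by_contra hne
    have hm2 : (2 : ℝ) ≤ m := by exact_mod_cast (by omega : (2 : ℤ) ≤ m)
    obtain ⟨s, hs, hsφ⟩ : ∃ s ∈ Icc (0 : ℝ) L, φ s = φ 0 + 2 * Real.pi :=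
      intermediate_value_Icc hL.le hφc.continuousOn ⟨by linarith, by nlinarith⟩
    have hs0 : 0 < s := lt_of_le_of_ne hs.1 (fun h => by rw [← h] at hsφ; linarith)
    have hsL : s < L := lt_of_le_of_ne hs.2 (fun h => by
      rw [h] at hsφ; nlinarith)
    have hk : ∀ k : ℤ, s ≠ 0 + k * L := by
      intro k hk
      have h1 : 0 < (k : ℝ) * L := by linarith
      have h2 : (k : ℝ) * L < L := by linarith
      have h3 : (0 : ℝ) < k := by
        by_contra hn
        push Not at hn
        nlinarith
      have h4 : (k : ℝ) < 1 := by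
        by_contra hn
        push Not at hn
        nlinarith
      have h5 : 0 < k := by exact_mod_cast h3
      have h6 : k < 1 := by exact_mod_cast h4
      omega
    have hk' : ∀ k : ℤ, (0 : ℝ) ≠ s + k * L := by
      intro k hk2
      apply hk (-k)
      push_cast
      linarith
    have p1 := h.left hk
    have p2 := h.left hk'
    have e1 : deriv X s = deriv X 0 := by
      rw [(hXY s).1, (hXY 0).1, hsφ, Real.cos_add_two_pi]
    have e2 : deriv Y s = deriv Y 0 := by
      rw [(hXY s).2, (hXY 0).2, hsφ, Real.sin_add_two_pi]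
    rw [e1, e2] at p2
    linarith
  refine ⟨φ, ⟨hL, hφd, h.curv_nonneg, hstrict, ?_, ?_, ?_⟩, hXY⟩
  · intro t
    have := hconst t
    rw [hm, hm1] at this
    push_cast at this
    linarith
  · have e : (fun t => Real.cos (φ t)) = deriv X := funext fun t => (hXY t).1.symm
    rw [e, intervalIntegral.integral_deriv_eq_sub (fun t _ => (h.dX t).differentiableAt)]
    · have := h.periodic_X 0
      rw [zero_add] at this
      rw [this, sub_self]
    · exact ((contDiff_infty_iff_deriv.1 h.smooth_X).2.continuous).intervalIntegrable _ _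
  · have e : (fun t => Real.sin (φ t)) = deriv Y := funext fun t => (hXY t).2.symm
    rw [e, intervalIntegral.integral_deriv_eq_sub (fun t _ => (h.dY t).differentiableAt)]
    · have := h.periodic_Y 0
      rw [zero_add] at this
      rw [this, sub_self]
    · exact ((contDiff_infty_iff_deriv.1 h.smooth_Y).2.continuous).intervalIntegrable _ _

end ConvexTrack

end Pool.Agent.Q140.Bike
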