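import Pool.Agent.Q140.Bike.Trans
import Pool.Agent.Q140.Bike.Track

/-!
# Lifts of the bicycle monodromy to `SL(2, ℝ)`
-/

open Set MeasureTheory Matrix

namespace Pool.Agent.Q140.Bike

/-- `θ` is a steering solution: the bicycle equation
`ℓ θ' = Γ' · (- sin θ, cos θ)` for the front track `Γ = (X, Y)`. -/
def Steering (X Y : ℝ → ℝ) (l : ℝ) (θ : ℝ → ℝ) : Prop :=
  ∀ t, HasDerivAt θ ((-(deriv X t) * Real.sin (θ t) + deriv Y t * Real.cos (θ t)) / l) t

/-- The point of the projective line with angle `θ / 2`. -/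
noncomputable def dir (θ : ℝ) : Fin 2 → ℝ := ![Real.cos (θ / 2), Real.sin (θ / 2)]

/-- `M ∈ SL(2, ℝ)` is a lift of the monodromy `θ(0) ↦ θ(T)`, where the circle is identified with
the projective line by `θ ↦ [cos (θ/2) : sin (θ/2)]`.  Every initial angle is attained. -/
structure IsLift (X Y : ℝ → ℝ) (T l : ℝ) (M : SpecialLinearGroup (Fin 2) ℝ) : Prop where
  exists_sol : ∀ x : ℝ, ∃ θ, Steering X Y l θ ∧ θ 0 = x
  lift : ∀ θ, Steering X Y l θ → ∃ r : ℝ, r ≠ 0 ∧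
    (M : Matrix (Fin 2) (Fin 2) ℝ) *ᵥ dir (θ 0) = r • dir (θ T)

/-- The monodromy of the front track for the length `l` is hyperbolic. -/
def Hyperbolic (X Y : ℝ → ℝ) (T l : ℝ) : Prop :=
  ∃ M, IsLift X Y T l M ∧ 2 < |(M : Matrix (Fin 2) (Fin 2) ℝ).trace|

/-- The monodromy of the front track for the length `l` is elliptic. -/
def Elliptic (X Y : ℝ → ℝ) (T l : ℝ) : Prop :=
  ∃ M, IsLift X Y T l M ∧ |(M : Matrix (Fin 2) (Fin 2) ℝ).trace| < 2

section

variable {L : ℝ} {X Y φ κ : ℝ → ℝ}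

theorem steering_iff (hφ : ∀ t, deriv X t = Real.cos (φ t) ∧ deriv Y t = Real.sin (φ t))
    {l : ℝ} {θ : ℝ → ℝ} :
    Steering X Y l θ ↔ Sol φ l⁻¹ (fun t => θ t + Real.pi) := by
  have e : ∀ t, (-(deriv X t) * Real.sin (θ t) + deriv Y t * Real.cos (θ t)) / l =
      l⁻¹ * Real.sin (θ t + Real.pi - φ t) := by
    intro t
    rw [(hφ t).1, (hφ t).2, show θ t + Real.pi - φ t = θ t - φ t + Real.pi by ring,
      Real.sin_add_pi, Real.sin_sub]
    ring
  unfold Steering Sol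
  simp only [e]
  constructor
  · intro h t
    exact (h t).add_const _
  · intro h t
    have := (h t).sub_const Real.pi
    simpa using this

theorem steering_deriv (hφ : ∀ t, deriv X t = Real.cos (φ t) ∧ deriv Y t = Real.sin (φ t))
    {l : ℝ} {θ : ℝ → ℝ} (h : Steering X Y l θ) (t : ℝ) :
    HasDerivAt θ (-(l⁻¹ * Real.sin (θ t - φ t))) t := by
  have := h t
  rw [(hφ t).1, (hφ t).2] at this
  refine HasDerivAt.congr_deriv this ?_
  rw [Real.sin_sub]
  ring

/-- The logarithm of the length of the lifted solution. -/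
noncomputable def gg (φ : ℝ → ℝ) (l : ℝ) (θ : ℝ → ℝ) (t : ℝ) : ℝ :=
  ∫ s in (0 : ℝ)..t, l⁻¹ / 2 * Real.cos (θ s - φ s)

theorem gg_deriv (hφc : Continuous φ) {l : ℝ} {θ : ℝ → ℝ} (hθ : Continuous θ) (t : ℝ) :
    HasDerivAt (gg φ l θ) (l⁻¹ / 2 * Real.cos (θ t - φ t)) t := by
  have hc : Continuous (fun s => l⁻¹ / 2 * Real.cos (θ s - φ s)) := by fun_prop
  exact intervalIntegral.integral_hasDerivAt_right (hc.intervalIntegrable 0 t)
    (hc.stronglyMeasurableAtFilter _ _) hc.continuousAt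

/-- The Wronskian identity. -/
theorem wronsk (hφc : Continuous φ)
    (hφ : ∀ t, deriv X t = Real.cos (φ t) ∧ deriv Y t = Real.sin (φ t))
    {l : ℝ} {θ₁ θ₂ : ℝ → ℝ} (h1 : Steering X Y l θ₁) (h2 : Steering X Y l θ₂) (t : ℝ) :
    Real.exp (gg φ l θ₁ t + gg φ l θ₂ t) * Real.sin ((θ₂ t - θ₁ t) / 2) =
      Real.sin ((θ₂ 0 - θ₁ 0) / 2) := by
  have c1 : Continuous θ₁ := continuous_iff_continuousAt.2 fun t => (h1 t).continuousAt
  have c2 : Continuous θ₂ := continuous_iff_continuousAt.2 fun t => (h2 t).continuousAt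
  have hd : ∀ t, HasDerivAt (fun t => Real.exp (gg φ l θ₁ t + gg φ l θ₂ t) *
      Real.sin ((θ₂ t - θ₁ t) / 2)) 0 t := by
    intro t
    have k1 := ((gg_deriv hφc (l := l) c1 t).add (gg_deriv hφc (l := l) c2 t)).exp
    have k2 := (((steering_deriv hφ h2 t).sub (steering_deriv hφ h1 t)).div_const 2).sin
    have k3 := k1.mul k2
    refine HasDerivAt.congr_deriv k3 ?_
    simp only [Pi.add_apply, Pi.sub_apply]
    have e1 : Real.cos (θ₁ t - φ t) + Real.cos (θ₂ t - φ t) =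
        2 * Real.cos ((θ₁ t - φ t + (θ₂ t - φ t)) / 2) * Real.cos ((θ₂ t - θ₁ t) / 2) := by
      rw [Real.cos_add_cos]
      rw [show (θ₁ t - φ t - (θ₂ t - φ t)) / 2 = -((θ₂ t - θ₁ t) / 2) by ring, Real.cos_neg]
    have e2 : Real.sin (θ₂ t - φ t) - Real.sin (θ₁ t - φ t) =
        2 * Real.sin ((θ₂ t - θ₁ t) / 2) * Real.cos ((θ₁ t - φ t + (θ₂ t - φ t)) / 2) := by
      rw [Real.sin_sub_sin]
      rw [show (θ₂ t - φ t - (θ₁ t - φ t)) / 2 = (θ₂ t - θ₁ t) / 2 by ring,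
        show (θ₂ t - φ t + (θ₁ t - φ t)) / 2 = (θ₁ t - φ t + (θ₂ t - φ t)) / 2 by ring]
    set E := Real.exp (gg φ l θ₁ t + gg φ l θ₂ t)
    set S := Real.sin ((θ₂ t - θ₁ t) / 2)
    set C := Real.cos ((θ₂ t - θ₁ t) / 2)
    set D := Real.cos ((θ₁ t - φ t + (θ₂ t - φ t)) / 2)
    have e3 : Real.cos (θ₂ t - φ t) = 2 * D * C - Real.cos (θ₁ t - φ t) := by linarith
    have e4 : Real.sin (θ₂ t - φ t) = 2 * S * D + Real.sin (θ₁ t - φ t) := by linarith
    rw [e3, e4]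
    ring
  have := is_const_of_deriv_eq_zero (f := fun t => Real.exp (gg φ l θ₁ t + gg φ l θ₂ t) *
    Real.sin ((θ₂ t - θ₁ t) / 2)) (fun t => (hd t).differentiableAt) (fun t => (hd t).deriv) t 0
  rw [this]
  simp [gg]

/-- Existence of a lift. -/
theorem exists_lift (hF : Front L φ κ) (hκ : Continuous κ)
    (hφ : ∀ t, deriv X t = Real.cos (φ t) ∧ deriv Y t = Real.sin (φ t))
    {l : ℝ} (hl : 0 < l) : ∃ M, IsLift X Y L l M := by
  have hpi := Real.pi_pos
  have hφc := hF.cont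
  have hex : ∀ x : ℝ, ∃ θ, Steering X Y l θ ∧ θ 0 = x := by
    intro x
    obtain ⟨θ, h0, hθ⟩ := exists_sol hF hκ (inv_pos.2 hl) (x + Real.pi)
    refine ⟨fun t => θ t - Real.pi, ?_, by simp only [h0]; ring⟩
    rw [steering_iff hφ]
    simpa [Sol] using hθ
  obtain ⟨θ1, h1, h10⟩ := hex 0
  obtain ⟨θ2, h2, h20⟩ := hex Real.pi
  set g1 := gg φ l θ1 L with hg1
  set g2 := gg φ l θ2 L with hg2
  set A : Matrix (Fin 2) (Fin 2) ℝ :=
    !![Real.exp g1 * Real.cos (θ1 L / 2), Real.exp g2 * Real.cos (θ2 L / 2);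
       Real.exp g1 * Real.sin (θ1 L / 2), Real.exp g2 * Real.sin (θ2 L / 2)] with hA
  have hdetsin : Real.exp g1 * Real.exp g2 * Real.sin ((θ2 L - θ1 L) / 2) = 1 := by
    have := wronsk hφc hφ h1 h2 L
    rw [h10, h20, sub_zero, Real.sin_pi_div_two, Real.exp_add] at this
    exact this
  have hsub : ∀ a b : ℝ, Real.sin ((b - a) / 2) =
      Real.cos (a / 2) * Real.sin (b / 2) - Real.sin (a / 2) * Real.cos (b / 2) := by
    intro a b
    rw [sub_div, Real.sin_sub]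
    ring
  have hdet : A.det = 1 := by
    rw [hA, Matrix.det_fin_two_of, ← hdetsin, hsub]
    ring
  refine ⟨⟨A, hdet⟩, hex, ?_⟩
  intro θ hθ
  refine ⟨Real.exp (gg φ l θ L), (Real.exp_pos _).ne', ?_⟩
  have w1 := wronsk hφc hφ hθ h2 L
  have w2 := wronsk hφc hφ h1 hθ L
  rw [h20, hsub, Real.exp_add, ← hg2] at w1
  rw [h10, sub_zero, hsub, Real.exp_add, ← hg1] at w2
  rw [sub_div, Real.sin_sub, Real.sin_pi_div_two, Real.cos_pi_div_two, one_mul, zero_mul,
    sub_zero] at w1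
  rw [hsub] at hdetsin
  set g := gg φ l θ L
  ext i
  fin_cases i
  · simp only [hA, dir, Fin.zero_eta, Matrix.mulVec, dotProduct, Fin.sum_univ_two, Matrix.of_apply,
      Matrix.cons_val', Matrix.cons_val_zero, Matrix.cons_val_fin_one, Matrix.cons_val_one,
      Pi.smul_apply, smul_eq_mul]
    rw [← w1, ← w2]
    linear_combination (Real.exp g * Real.cos (θ L / 2)) * hdetsin
  · simp only [hA, dir, Fin.mk_one, Matrix.mulVec, dotProduct, Fin.sum_univ_two, Matrix.of_apply,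
      Matrix.cons_val', Matrix.cons_val_zero, Matrix.cons_val_fin_one, Matrix.cons_val_one,
      Pi.smul_apply, smul_eq_mul]
    rw [← w1, ← w2]
    linear_combination (Real.exp g * Real.sin (θ L / 2)) * hdetsin

end

end Pool.Agent.Q140.Bike
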