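import Pool.Agent.Q140.Bike.RotOne

/-!
# Solutions of the angle equation: existence, dependence on the initial value and on `c`
-/

open Set MeasureTheory
open scoped NNReal Topology

namespace Pool.Agent.Q140.Bike

section General

variable {F : Type*} [NormedAddCommGroup F] [NormedSpace ℝ F] [CompleteSpace F]

/-- Bounded Lipschitz vector fields are complete. -/
theorem exists_global_solution (W : F → F) (K L : ℝ≥0) (hK : LipschitzWith K W)
    (hL : ∀ x, ‖W x‖ ≤ L) (x₀ : F) :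
    ∃ α : ℝ → F, α 0 = x₀ ∧ ∀ t, HasDerivAt α (W (α t)) t := by
  have key : ∀ n : ℕ, ∃ α : ℝ → F, α 0 = x₀ ∧ ∀ t ∈ Ioo (-(n + 1 : ℝ)) (n + 1),
      HasDerivAt α (W (α t)) t := by
    intro n
    have h0 : (0 : ℝ) ∈ Icc (-(n + 1 : ℝ)) (n + 1) := ⟨by linarith [n.cast_nonneg (α := ℝ)],
      by positivity⟩
    have hpl : IsPicardLindelof (fun _ => W) (⟨0, h0⟩ : Icc (-(n + 1 : ℝ)) (n + 1)) x₀
        (L * (n + 1 : ℝ≥0)) 0 L K := by
      apply IsPicardLindelof.of_time_independent (fun x _ => hL x) (hK.lipschitzOnWith)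
      simp
    obtain ⟨α, h1, h2⟩ := hpl.exists_eq_forall_mem_Icc_hasDerivWithinAt₀
    refine ⟨α, h1, fun t ht => ?_⟩
    exact (h2 t (Ioo_subset_Icc_self ht)).hasDerivAt (Icc_mem_nhds ht.1 ht.2)
  choose α hα0 hα using key
  have huniq : ∀ n m : ℕ, n ≤ m → EqOn (α n) (α m) (Ioo (-(n + 1 : ℝ)) (n + 1)) := by
    intro n m hnm
    have hc : (n : ℝ) ≤ m := by exact_mod_cast hnm
    have h0 : (0 : ℝ) ∈ Ioo (-(n + 1 : ℝ)) (n + 1) := ⟨by linarith [n.cast_nonneg (α := ℝ)],
      by positivity⟩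
    refine ODE_solution_unique_of_mem_Ioo (v := fun _ => W) (s := fun _ => univ) (K := K)
      (fun t _ => hK.lipschitzOnWith) h0 (fun t ht => ⟨hα n t ht, mem_univ _⟩)
      (fun t ht => ⟨hα m t ⟨by linarith [ht.1], by linarith [ht.2]⟩, mem_univ _⟩) ?_
    rw [hα0, hα0]
  refine ⟨fun t => α ⌈|t|⌉₊ t, ?_, fun t => ?_⟩
  · simp only
    exact hα0 _
  · have hev : (fun s => α ⌈|s|⌉₊ s) =ᶠ[𝓝 t] α (⌈|t|⌉₊ + 1) := by
      have h1 : ∀ᶠ s in 𝓝 t, |s| < |t| + 1 := by
        have : Continuous fun s : ℝ => |s| := continuous_abs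
        exact this.continuousAt.eventually_lt continuousAt_const (by simp)
      filter_upwards [h1] with s hs
      have h2 : ⌈|s|⌉₊ ≤ ⌈|t|⌉₊ + 1 := by
        apply Nat.ceil_le.2
        have := Nat.le_ceil (|t|)
        push_cast
        linarith
      apply huniq _ _ h2
      have h3 := Nat.le_ceil (|s|)
      have h4 := abs_le.1 (le_refl |s|)
      constructor <;> linarith
    have h5 : HasDerivAt (α (⌈|t|⌉₊ + 1)) (W (α (⌈|t|⌉₊ + 1) t)) t := by
      apply hα
      have h3 := Nat.le_ceil (|t|)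
      have h4 := abs_le.1 (le_refl |t|)
      push_cast
      constructor <;> linarith
    have h6 := h5.congr_of_eventuallyEq hev
    have h7 : α (⌈|t|⌉₊ + 1) t = α ⌈|t|⌉₊ t := hev.self_of_nhds.symm
    rw [h7] at h6
    exact h6

end General

variable {L : ℝ} {φ κ : ℝ → ℝ}

theorem Front.per_κ (hF : Front L φ κ) (t : ℝ) : κ (t + L) = κ t := by
  have h1 := HasDerivAt.comp_add_const t L (hF.deriv (t + L))
  have h2 : (fun t => φ (t + L)) = fun t => φ t + 2 * Real.pi := funext hF.per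
  rw [h2] at h1
  have h3 := (hF.deriv t).add_const (2 * Real.pi)
  exact h1.unique h3

theorem Front.exists_bound (hF : Front L φ κ) (hκ : Continuous κ) :
    ∃ K : ℝ, 0 < K ∧ ∀ t, κ t ≤ K := by
  have hp : Function.Periodic κ L := hF.per_κ
  obtain ⟨M, hM⟩ := (hp.isBounded_of_continuous hF.pos.ne' hκ).exists_norm_le
  refine ⟨max M 1, by positivity, fun t => ?_⟩
  exact (le_abs_self _).trans ((hM _ ⟨t, rfl⟩).trans (le_max_left _ _))

/-- Existence of solutions. -/
theorem exists_sol (hF : Front L φ κ) (hκ : Continuous κ) {c : ℝ} (hc : 0 < c) (x : ℝ) :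
    ∃ θ : ℝ → ℝ, θ 0 = x ∧ ∀ t, HasDerivAt θ (c * Real.sin (θ t - φ t)) t := by
  obtain ⟨K, hK0, hK⟩ := hF.exists_bound hκ
  have hφL : ∀ s t, |φ s - φ t| ≤ K * |s - t| := by
    have : LipschitzWith ⟨K, hK0.le⟩ φ := by
      apply lipschitzWith_of_nnnorm_deriv_le (fun t => (hF.deriv t).differentiableAt)
      intro t
      rw [(hF.deriv t).deriv]
      have h1 : ‖κ t‖ ≤ K := by
        rw [Real.norm_of_nonneg (hF.nonneg t)]; exact hK t
      exact h1
    intro s t
    have := this.dist_le_mul s t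
    rwa [Real.dist_eq, Real.dist_eq] at this
  set W : ℝ × ℝ → ℝ × ℝ := fun p => (1, c * Real.sin (p.2 - φ p.1)) with hW
  have hWL : LipschitzWith (Real.toNNReal (c * (1 + K))) W := by
    apply LipschitzWith.of_dist_le_mul
    intro p q
    rw [Real.coe_toNNReal _ (by positivity), Prod.dist_eq]
    simp only [hW, dist_self]
    apply max_le (by positivity)
    rw [Real.dist_eq, ← mul_sub, abs_mul, abs_of_pos hc]
    have h1 := Real.abs_sin_sub_sin_le (p.2 - φ p.1) (q.2 - φ q.1)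
    have h2 : |p.2 - φ p.1 - (q.2 - φ q.1)| ≤ |p.2 - q.2| + |φ p.1 - φ q.1| := by
      rw [show p.2 - φ p.1 - (q.2 - φ q.1) = (p.2 - q.2) - (φ p.1 - φ q.1) by ring]
      exact abs_sub _ _
    have h3 := hφL p.1 q.1
    have h4 : |p.1 - q.1| ≤ dist p q := by
      rw [← Real.dist_eq, Prod.dist_eq]; exact le_max_left _ _
    have h5 : |p.2 - q.2| ≤ dist p q := by
      rw [← Real.dist_eq, Prod.dist_eq]; exact le_max_right _ _
    calc c * |Real.sin (p.2 - φ p.1) - Real.sin (q.2 - φ q.1)|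
        ≤ c * (dist p q + K * dist p q) := by
          apply mul_le_mul_of_nonneg_left _ hc.le
          have : K * |p.1 - q.1| ≤ K * dist p q := mul_le_mul_of_nonneg_left h4 hK0.le
          linarith
      _ = c * (1 + K) * dist p q := by ring
  have hWb : ∀ p, ‖W p‖ ≤ (Real.toNNReal (1 + c) : ℝ≥0) := by
    intro p
    rw [Real.coe_toNNReal _ (by positivity), Prod.norm_def]
    apply max_le
    · simp only [hW, norm_one]; linarith
    · simp only [hW]
      rw [Real.norm_eq_abs, abs_mul, abs_of_pos hc]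
      have := Real.abs_sin_le_one (p.2 - φ p.1)
      nlinarith
  obtain ⟨α, hα0, hα⟩ := exists_global_solution W _ _ hWL hWb ((0 : ℝ), x)
  have h1 : ∀ t, HasDerivAt (fun t => (α t).1) 1 t := fun t => (hα t).fst
  have h2 : ∀ t, HasDerivAt (fun t => (α t).2) (c * Real.sin ((α t).2 - φ (α t).1)) t :=
    fun t => (hα t).snd
  have h3 : ∀ t, (α t).1 = t := by
    intro t
    have hd : ∀ t, HasDerivAt (fun t => (α t).1 - t) 0 t := by
      intro t
      have := (h1 t).sub (hasDerivAt_id t)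
      rw [sub_self] at this
      exact this
    have := is_const_of_deriv_eq_zero (f := fun t => (α t).1 - t)
      (fun t => (hd t).differentiableAt) (fun t => (hd t).deriv) t 0
    rw [hα0] at this
    simp only [sub_zero] at this
    linarith
  refine ⟨fun t => (α t).2, by simp only [hα0], fun t => ?_⟩
  have := h2 t
  rwa [h3 t] at this

/-- Dependence on the initial value. -/
theorem sol_dist {c : ℝ} (hc : 0 < c) {θ₁ θ₂ : ℝ → ℝ}
    (h1 : ∀ t, HasDerivAt θ₁ (c * Real.sin (θ₁ t - φ t)) t)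
    (h2 : ∀ t, HasDerivAt θ₂ (c * Real.sin (θ₂ t - φ t)) t) {t : ℝ} (ht : 0 ≤ t) :
    dist (θ₁ t) (θ₂ t) ≤ dist (θ₁ 0) (θ₂ 0) * Real.exp (c * t) := by
  have hlip : ∀ t, LipschitzWith ⟨c, hc.le⟩ (fun x => c * Real.sin (x - φ t)) := by
    intro t
    apply LipschitzWith.of_dist_le_mul
    intro x y
    rw [Real.dist_eq, ← mul_sub, abs_mul, abs_of_pos hc, Real.dist_eq]
    have h1 := Real.abs_sin_sub_sin_le (x - φ t) (y - φ t)
    rw [show x - φ t - (y - φ t) = x - y by ring] at h1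
    exact mul_le_mul_of_nonneg_left h1 hc.le
  have := dist_le_of_trajectories_ODE (v := fun t x => c * Real.sin (x - φ t)) (K := ⟨c, hc.le⟩)
    (f := θ₁) (g := θ₂) (a := 0) (b := t) (δ := dist (θ₁ 0) (θ₂ 0)) hlip
    (fun s _ => (h1 s).continuousAt.continuousWithinAt)
    (fun s _ => (h1 s).hasDerivWithinAt)
    (fun s _ => (h2 s).continuousAt.continuousWithinAt)
    (fun s _ => (h2 s).hasDerivWithinAt) le_rfl t ⟨ht, le_refl _⟩
  rw [sub_zero] at this
  exact this

/-- Strict monotonicity in `c` along a periodic solution with `sin α > 0`. -/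
theorem comparison {c c₁ : ℝ} (hc1 : 0 < c₁) (hcc : c₁ < c) {θ θ₁ : ℝ → ℝ}
    (h : ∀ t, HasDerivAt θ (c * Real.sin (θ t - φ t)) t)
    (h1 : ∀ t, HasDerivAt θ₁ (c₁ * Real.sin (θ₁ t - φ t)) t)
    (hpos : ∀ t, 0 ≤ t → 0 < Real.sin (θ₁ t - φ t)) (h0 : θ 0 = θ₁ 0) {t : ℝ} (ht : 0 < t) :
    θ₁ t < θ t := by
  have hc : 0 < c := hc1.trans hcc
  have key : ∀ τ, |Real.sin (θ₁ τ - φ τ) - Real.sin (θ τ - φ τ)| ≤ |θ₁ τ - θ τ| := by
    intro τ
    have := Real.abs_sin_sub_sin_le (θ₁ τ - φ τ) (θ τ - φ τ)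
    rwa [show θ₁ τ - φ τ - (θ τ - φ τ) = θ₁ τ - θ τ by ring] at this
  have hle : ∀ t, 0 ≤ t → θ₁ t - θ t ≤ 0 := by
    intro t ht
    refine le_zero_of (u := fun t => θ₁ t - θ t) (K := c) (fun t => (h1 t).sub (h t)) ht
      (fun τ hτ hτ0 => ?_) (by simp [h0])
    have h2 := (le_abs_self _).trans (key τ)
    rw [abs_of_pos hτ0] at h2
    have h3 := hpos τ hτ.1
    nlinarith
  have hlt : θ₁ t - θ t ≠ 0 := by
    intro heq
    have hd := (h1 t).sub (h t)
    have hs : Real.sin (θ t - φ t) = Real.sin (θ₁ t - φ t) := by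
      rw [show θ t = θ₁ t by linarith]
    rw [hs] at hd
    have hneg : c₁ * Real.sin (θ₁ t - φ t) - c * Real.sin (θ₁ t - φ t) < 0 := by
      have := hpos t ht.le
      nlinarith
    -- the left derivative of a function which is `≤ 0` on the left and `0` at `t`
    have hev : ∀ᶠ s in 𝓝[<] t, 0 < θ₁ s - θ s := by
      have h5 := (hasDerivAt_iff_tendsto_slope_left_right.1 hd).1
      have h6 := h5.eventually_lt_const hneg
      filter_upwards [h6, self_mem_nhdsWithin] with s hs1 hs2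
      have hs2' : s < t := hs2
      rw [slope_def_field] at hs1
      simp only [Pi.sub_apply] at hs1
      rw [heq, sub_zero] at hs1
      by_contra hn
      push Not at hn
      have : 0 ≤ (θ₁ s - θ s) / (s - t) := div_nonneg_of_nonpos hn (by linarith)
      linarith
    have hev2 : ∀ᶠ s in 𝓝[<] t, 0 < s := (lt_mem_nhds ht).filter_mono nhdsWithin_le_nhds
    obtain ⟨s, hs1, hs2⟩ := (hev.and hev2).exists
    exact absurd (hle s hs2.le) (not_le.2 hs1)
  have := hle t ht.le
  have : θ₁ t - θ t < 0 := lt_of_le_of_ne this hlt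
  linarith

end Pool.Agent.Q140.Bike
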