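import Pool.Agent.Q140.Bike.Basic

/-!
# The rotation number of a closed rear track is one
-/

open Set MeasureTheory

namespace Pool.Agent.Q140.Bike

variable {L : ℝ} {φ κ : ℝ → ℝ}

theorem Front.cont (hF : Front L φ κ) : Continuous φ :=
  continuous_iff_continuousAt.2 fun t => (hF.deriv t).continuousAt

/-- Shift of the parameter and of the angle. -/
theorem Front.shift (hF : Front L φ κ) (a : ℝ) : Front L (fun t => φ (t + a)) (fun t => κ (t + a)) where
  pos := hF.pos
  deriv := fun t => HasDerivAt.comp_add_const t a (hF.deriv (t + a))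
  nonneg := fun t => hF.nonneg _
  strict := fun s t h => hF.strict (by linarith)
  per := fun t => by
    rw [show t + L + a = t + a + L by ring, hF.per]
  cos0 := by
    have hp : Function.Periodic (fun t => Real.cos (φ t)) L := fun t => by
      simp only [hF.per, Real.cos_add_two_pi]
    have h1 := intervalIntegral.integral_comp_add_right (a := 0) (b := L)
      (fun t => Real.cos (φ t)) a
    rw [h1, zero_add, add_comm L a, hp.intervalIntegral_add_eq a 0, zero_add, hF.cos0]
  sin0 := by
    have hp : Function.Periodic (fun t => Real.sin (φ t)) L := fun t => by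
      simp only [hF.per, Real.sin_add_two_pi]
    have h1 := intervalIntegral.integral_comp_add_right (a := 0) (b := L)
      (fun t => Real.sin (φ t)) a
    rw [h1, zero_add, add_comm L a, hp.intervalIntegral_add_eq a 0, zero_add, hF.sin0]

/-- The primitive of `1 / cos (x - a)`. -/
noncomputable def Lam (a x : ℝ) : ℝ :=
  (1 / 2) * (Real.log (1 + Real.sin (x - a)) - Real.log (1 - Real.sin (x - a)))

theorem hasDerivAt_Lam {a x : ℝ} (h : 0 < Real.cos (x - a)) :
    HasDerivAt (Lam a) (1 / Real.cos (x - a)) x := by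
  have hs : Real.sin (x - a) ^ 2 < 1 := by
    have := Real.sin_sq_add_cos_sq (x - a)
    have := pow_pos h 2
    linarith
  have hs2 := abs_lt.1 ((sq_lt_one_iff_abs_lt_one _).1 hs)
  have h1 : HasDerivAt (fun x => Real.sin (x - a)) (Real.cos (x - a)) x :=
    HasDerivAt.comp_sub_const x a (Real.hasDerivAt_sin (x - a))
  have hp : 0 < 1 + Real.sin (x - a) := by linarith [hs2.1]
  have hm : 0 < 1 - Real.sin (x - a) := by linarith [hs2.2]
  have h2 := ((h1.const_add 1).log hp.ne').sub ((h1.const_sub 1).log hm.ne')
  have h3 := h2.const_mul (1 / 2 : ℝ)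
  refine HasDerivAt.congr_deriv h3 ?_
  have hcs : Real.cos (x - a) ^ 2 = (1 + Real.sin (x - a)) * (1 - Real.sin (x - a)) := by
    have := Real.sin_sq_add_cos_sq (x - a)
    linarith
  field_simp
  rw [hcs]
  ring

/-- The case `k = 0` is impossible; normalised form with `α 0 = π`. -/
theorem no_zero (hF : Front L φ κ) {c : ℝ} (hc : 0 < c) {θ : ℝ → ℝ}
    (hθ : ∀ t, HasDerivAt θ (c * Real.sin (θ t - φ t)) t) (hper : θ L = θ 0)
    (h0 : θ 0 - φ 0 = Real.pi) : False := by
  have hpi := Real.pi_pos
  have hL := hF.pos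
  set α : ℝ → ℝ := fun t => θ t - φ t with hαd
  have hα : ∀ t, HasDerivAt α (c * Real.sin (α t) - κ t) t := fun t =>
    (hθ t).sub (hF.deriv t)
  have hαc : Continuous α := continuous_iff_continuousAt.2 fun t => (hα t).continuousAt
  have hθc : Continuous θ := continuous_iff_continuousAt.2 fun t => (hθ t).continuousAt
  have hφc := hF.cont
  have hα0 : α 0 = Real.pi := h0
  have hαL : α L = -Real.pi := by
    have := hF.per 0
    rw [zero_add] at this
    simp only [hαd] at hα0 ⊢
    rw [this, hper]; linarith
  -- the time when `α = 0`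
  obtain ⟨t1, ht1, hαt1⟩ : ∃ t ∈ Icc (0 : ℝ) L, α t = 0 := by
    have := intermediate_value_Icc' hL.le hαc.continuousOn
    exact this ⟨by rw [hαL]; linarith, by rw [hα0]; linarith⟩
  have ht10 : 0 < t1 := lt_of_le_of_ne ht1.1 (fun h => by
    rw [← h, hα0] at hαt1; linarith)
  have ht1L : t1 < L := lt_of_le_of_ne ht1.2 (fun h => by
    rw [h, hαL] at hαt1; linarith)
  have cr1 : ∀ t, 0 < t → α t < Real.pi := by
    intro t ht
    have := cross hF hα hc ht (m := 1) (by rw [hα0]; simp)
    simpa using this
  have cr2 : ∀ t, t < t1 → 0 < α t := by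
    intro t ht
    by_contra hn
    push Not at hn
    have := cross hF hα hc ht (m := 0) (by simpa using hn)
    rw [hαt1] at this; simp at this
  have cr3 : ∀ t, t1 < t → α t < 0 := by
    intro t ht
    have := cross hF hα hc ht (m := 0) (by rw [hαt1]; simp)
    simpa using this
  have cr4 : ∀ t, t < L → -Real.pi < α t := by
    intro t ht
    by_contra hn
    push Not at hn
    have := cross hF hα hc ht (m := -1) (by simpa using hn)
    rw [hαL] at this; simp at this
  have inc : StrictMonoOn θ (Icc 0 t1) := by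
    apply strictMonoOn_of_deriv_pos (convex_Icc 0 t1) hθc.continuousOn
    intro t ht
    rw [interior_Icc] at ht
    rw [(hθ t).deriv]
    exact mul_pos hc (Real.sin_pos_of_pos_of_lt_pi (cr2 t ht.2) (cr1 t ht.1))
  have dec : StrictAntiOn θ (Icc t1 L) := by
    apply strictAntiOn_of_deriv_neg (convex_Icc t1 L) hθc.continuousOn
    intro t ht
    rw [interior_Icc] at ht
    rw [(hθ t).deriv]
    exact mul_neg_of_pos_of_neg hc (Real.sin_neg_of_neg_of_neg_pi_lt (cr3 t ht.1) (cr4 t ht.2))
  have hθ01 : θ 0 < θ t1 := inc ⟨le_rfl, ht10.le⟩ ⟨ht10.le, le_rfl⟩ ht10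
  have eθ0 : θ 0 = φ 0 + Real.pi := by linarith
  have eθ1 : θ t1 = φ t1 := by simp only [hαd] at hαt1; linarith
  have eφL : φ L = φ 0 + 2 * Real.pi := by have := hF.per 0; rwa [zero_add] at this
  have hφ1L : φ t1 < φ L := hF.strict ht1L
  have hgap : φ 0 + Real.pi < φ t1 := by linarith
  -- the inverse of `φ`
  have hsurj : Function.Surjective φ := by
    have hn : ∀ n : ℕ, φ (0 + n * L) = φ 0 + n * (2 * Real.pi) := by
      intro n
      induction n with
      | zero => simp
      | succ n ih =>
        rw [show (0 : ℝ) + ((n + 1 : ℕ) : ℝ) * L = 0 + n * L + L by push_cast; ring, hF.per, ih]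
        push_cast; ring
    have hn' : ∀ n : ℕ, φ (0 - n * L) = φ 0 - n * (2 * Real.pi) := by
      intro n
      induction n with
      | zero => simp
      | succ n ih =>
        have := hF.per (0 - ((n + 1 : ℕ) : ℝ) * L)
        rw [show (0 : ℝ) - ((n + 1 : ℕ) : ℝ) * L + L = 0 - n * L by push_cast; ring, ih] at this
        push_cast at this ⊢; linarith
    intro y
    obtain ⟨n, hn1⟩ := exists_nat_gt (|y - φ 0| / (2 * Real.pi))
    rw [div_lt_iff₀ (by positivity)] at hn1
    have h1 := abs_lt.1 hn1
    have h2 : y ∈ Icc (φ (0 - n * L)) (φ (0 + n * L)) := by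
      rw [hn, hn']
      constructor <;> linarith [h1.1, h1.2]
    have h3 : 0 - n * L ≤ 0 + n * L := by
      have : 0 ≤ (n : ℝ) * L := by positivity
      linarith
    obtain ⟨x, -, hx⟩ := intermediate_value_Icc h3 hφc.continuousOn h2
    exact ⟨x, hx⟩
  let e : ℝ ≃o ℝ := hF.strict.orderIsoOfSurjective φ hsurj
  have he : ∀ t, e t = φ t := fun t => rfl
  have hes : ∀ y, φ (e.symm y) = y := fun y => e.apply_symm_apply y
  have hes' : ∀ t, e.symm (φ t) = t := fun t => e.symm_apply_apply t
  have hec : Continuous e.symm := e.symm.continuous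
  -- the time `s`
  set G : ℝ → ℝ := fun s => θ s - θ (e.symm (φ s + Real.pi)) with hG
  have hGc : Continuous G :=
    hθc.sub (hθc.comp (hec.comp (hφc.add continuous_const)))
  set s1 := e.symm (φ t1 - Real.pi) with hs1
  set s2 := e.symm (φ 0 + Real.pi) with hs2
  have hs1_pos : 0 < s1 := by
    have : e.symm (φ 0) < e.symm (φ t1 - Real.pi) := e.symm.strictMono (by linarith)
    rwa [hes'] at this
  have hs1_lt : s1 < t1 := by
    have : e.symm (φ t1 - Real.pi) < e.symm (φ t1) := e.symm.strictMono (by linarith)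
    rwa [hes'] at this
  have hs2_pos : 0 < s2 := by
    have : e.symm (φ 0) < e.symm (φ 0 + Real.pi) := e.symm.strictMono (by linarith)
    rwa [hes'] at this
  have hs2_lt : s2 < t1 := by
    have : e.symm (φ 0 + Real.pi) < e.symm (φ t1) := e.symm.strictMono (by linarith)
    rwa [hes'] at this
  have hs12 : s1 < s2 := e.symm.strictMono (by linarith)
  have hG1 : G s1 < 0 := by
    have e1 : e.symm (φ s1 + Real.pi) = t1 := by
      rw [hs1, hes, sub_add_cancel, hes']
    simp only [hG, e1]
    have := inc ⟨hs1_pos.le, hs1_lt.le⟩ ⟨ht10.le, le_rfl⟩ hs1_lt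
    linarith
  have hG2 : 0 < G s2 := by
    have e1 : e.symm (φ s2 + Real.pi) = L := by
      rw [hs2, hes, show φ 0 + Real.pi + Real.pi = φ L by rw [eφL]; ring, hes']
    simp only [hG, e1]
    have := inc ⟨le_rfl, ht10.le⟩ ⟨hs2_pos.le, hs2_lt.le⟩ hs2_pos
    rw [hper]
    linarith
  obtain ⟨s, hs, hGs⟩ : ∃ s ∈ Icc s1 s2, G s = 0 :=
    intermediate_value_Icc hs12.le hGc.continuousOn ⟨hG1.le, hG2.le⟩
  have hs1' : s1 < s := lt_of_le_of_ne hs.1 (fun h => by rw [← h] at hGs; linarith)
  have hs2' : s < s2 := lt_of_le_of_ne hs.2 (fun h => by rw [h] at hGs; linarith)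
  set r := e.symm (φ s + Real.pi) with hr
  have hφr : φ r = φ s + Real.pi := hes _
  have hθsr : θ s = θ r := by simp only [hG] at hGs; linarith
  have hs0 : 0 < s := hs1_pos.trans hs1'
  have hst1 : s < t1 := hs2'.trans hs2_lt
  have hφs_gt : φ t1 - Real.pi < φ s := by
    have := hF.strict hs1'; rwa [hs1, hes] at this
  have hφs_lt : φ s < φ 0 + Real.pi := by
    have := hF.strict hs2'; rwa [hs2, hes] at this
  have ht1r : t1 < r := by
    rw [← hF.strict.lt_iff_lt, hφr]; linarith
  have hrL : r < L := by
    rw [← hF.strict.lt_iff_lt, hφr]; linarith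
  set a := φ s + Real.pi / 2 with ha
  set b := θ s with hb
  -- range of `θ`
  have hθmin : ∀ t ∈ Icc (0 : ℝ) L, θ 0 ≤ θ t ∧ θ t ≤ θ t1 := by
    intro t ht
    rcases le_total t t1 with h | h
    · exact ⟨inc.monotoneOn ⟨le_rfl, ht10.le⟩ ⟨ht.1, h⟩ ht.1,
        inc.monotoneOn ⟨ht.1, h⟩ ⟨ht10.le, le_rfl⟩ h⟩
    · refine ⟨?_, dec.antitoneOn ⟨le_rfl, ht1L.le⟩ ⟨h, ht.2⟩ h⟩
      rw [← hper]
      exact dec.antitoneOn ⟨h, ht.2⟩ ⟨ht1L.le, le_rfl⟩ ht.2
  have hcos : ∀ t ∈ Icc (0 : ℝ) L, 0 < Real.cos (θ t - a) := by
    intro t ht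
    obtain ⟨h1, h2⟩ := hθmin t ht
    apply Real.cos_pos_of_mem_Ioo
    constructor
    · rw [ha]; linarith
    · rw [ha]; linarith
  set F : ℝ → ℝ := fun t => Real.cos (φ t - a) * Real.sin (θ t - b) / Real.cos (θ t - a) with hFd
  have hFc : ContinuousOn F (Icc 0 L) := by
    apply ContinuousOn.div
    · exact (by fun_prop : Continuous fun t => Real.cos (φ t - a) * Real.sin (θ t - b)).continuousOn
    · exact (by fun_prop : Continuous fun t => Real.cos (θ t - a)).continuousOn
    · intro t ht
      exact (hcos t ht).ne'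
  -- nonnegativity
  have hθgap : θ t1 - θ 0 < Real.pi := by linarith
  have hb0 : θ 0 ≤ b := (hθmin s ⟨hs0.le, (hst1.trans ht1L).le⟩).1
  have hb1 : b ≤ θ t1 := (hθmin s ⟨hs0.le, (hst1.trans ht1L).le⟩).2
  have hFnn : ∀ t ∈ Icc (0 : ℝ) L, 0 ≤ F t := by
    intro t ht
    apply div_nonneg _ (hcos t ht).le
    obtain ⟨g1, g2⟩ := hθmin t ht
    rcases le_total t s with h | h
    · -- `[0, s]`
      have k1 : Real.cos (φ t - a) ≤ 0 := by
        rw [← Real.cos_neg]
        have := hF.strict.monotone h
        have := hF.strict.monotone ht.1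
        apply Real.cos_nonpos_of_pi_div_two_le_of_le
        · rw [ha]; linarith
        · rw [ha]; linarith
      have k2 : Real.sin (θ t - b) ≤ 0 := by
        have := inc.monotoneOn ⟨ht.1, h.trans hst1.le⟩ ⟨hs0.le, hst1.le⟩ h
        apply Real.sin_nonpos_of_nonpos_of_neg_pi_le
        · linarith
        · linarith
      exact mul_nonneg_of_nonpos_of_nonpos k1 k2
    · rcases le_total t r with h' | h'
      · -- `[s, r]`
        have k1 : 0 ≤ Real.cos (φ t - a) := by
          have := hF.strict.monotone h
          have := hF.strict.monotone h'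
          apply Real.cos_nonneg_of_mem_Icc
          constructor
          · rw [ha]; linarith
          · rw [ha]; linarith
        have k2 : 0 ≤ Real.sin (θ t - b) := by
          have hbt : b ≤ θ t := by
            rcases le_total t t1 with h2 | h2
            · exact inc.monotoneOn ⟨hs0.le, hst1.le⟩ ⟨ht.1, h2⟩ h
            · rw [hθsr]
              exact dec.antitoneOn ⟨h2, ht.2⟩ ⟨ht1r.le, hrL.le⟩ h'
          apply Real.sin_nonneg_of_nonneg_of_le_pi
          · linarith
          · linarith
        exact mul_nonneg k1 k2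
      · -- `[r, L]`
        have k1 : Real.cos (φ t - a) ≤ 0 := by
          have := hF.strict.monotone h'
          have := hF.strict.monotone ht.2
          apply Real.cos_nonpos_of_pi_div_two_le_of_le
          · rw [ha]; linarith
          · rw [ha]; linarith
        have k2 : Real.sin (θ t - b) ≤ 0 := by
          have hbt : θ t ≤ b := by
            rw [hθsr]
            exact dec.antitoneOn ⟨ht1r.le, hrL.le⟩ ⟨ht1r.le.trans h', ht.2⟩ h'
          apply Real.sin_nonpos_of_nonpos_of_neg_pi_le
          · linarith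
          · linarith
        exact mul_nonneg_of_nonpos_of_nonpos k1 k2
  have hFpos : 0 < F t1 := by
    apply div_pos _ (hcos t1 ht1)
    apply mul_pos
    · have := hF.strict hst1
      apply Real.cos_pos_of_mem_Ioo
      constructor
      · rw [ha]; linarith
      · rw [ha]; linarith
    · have := inc ⟨hs0.le, hst1.le⟩ ⟨ht10.le, le_rfl⟩ hst1
      apply Real.sin_pos_of_pos_of_lt_pi
      · linarith
      · linarith
  have hIpos : 0 < ∫ t in (0 : ℝ)..L, F t := by
    have h0 : ∫ _ in (0 : ℝ)..L, (0 : ℝ) = 0 := by simp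
    refine h0.symm.trans_lt ?_
    exact intervalIntegral.integral_lt_integral_of_continuousOn_of_le_of_exists_lt hL
      continuousOn_const hFc (fun t ht => hFnn t ⟨ht.1.le, ht.2⟩) ⟨t1, ht1, hFpos⟩
  -- the integral vanishes
  have hdecomp : ∀ t ∈ Icc (0 : ℝ) L, F t = Real.cos (a - b) * (c⁻¹ *
      (1 / Real.cos (θ t - a) * (c * Real.sin (θ t - φ t)))) +
      (Real.cos (a - b) * (Real.cos a * Real.sin (φ t) - Real.sin a * Real.cos (φ t)) +
        Real.sin (a - b) * (Real.cos a * Real.cos (φ t) + Real.sin a * Real.sin (φ t))) := by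
    intro t ht
    have hne := (hcos t ht).ne'
    have e1 : Real.sin (θ t - b) = Real.sin (θ t - a) * Real.cos (a - b) +
        Real.cos (θ t - a) * Real.sin (a - b) := by
      rw [← Real.sin_add]; congr 1; ring
    have e2 : Real.sin (θ t - φ t) = Real.sin (θ t - a) * Real.cos (φ t - a) -
        Real.cos (θ t - a) * Real.sin (φ t - a) := by
      rw [← Real.sin_sub]; congr 1; ring
    have e3 : Real.cos a * Real.sin (φ t) - Real.sin a * Real.cos (φ t) = Real.sin (φ t - a) := by
      rw [Real.sin_sub]; ring
    have e4 : Real.cos a * Real.cos (φ t) + Real.sin a * Real.sin (φ t) = Real.cos (φ t - a) := by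
      rw [Real.cos_sub]; ring
    rw [e3, e4]
    simp only [hFd]
    rw [e1, e2]
    field_simp
    ring
  have hI0 : ∫ t in (0 : ℝ)..L, F t = 0 := by
    have hcongr : ∫ t in (0 : ℝ)..L, F t = ∫ t in (0 : ℝ)..L, (Real.cos (a - b) * (c⁻¹ *
      (1 / Real.cos (θ t - a) * (c * Real.sin (θ t - φ t)))) +
      (Real.cos (a - b) * (Real.cos a * Real.sin (φ t) - Real.sin a * Real.cos (φ t)) +
        Real.sin (a - b) * (Real.cos a * Real.cos (φ t) + Real.sin a * Real.sin (φ t)))) := by
      apply intervalIntegral.integral_congr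
      intro t ht
      rw [uIcc_of_le hL.le] at ht
      exact hdecomp t ht
    have hc1 : ContinuousOn (fun t => 1 / Real.cos (θ t - a) * (c * Real.sin (θ t - φ t)))
        (uIcc 0 L) := by
      rw [uIcc_of_le hL.le]
      apply ContinuousOn.mul
      · apply ContinuousOn.div continuousOn_const
        · exact (by fun_prop : Continuous fun t => Real.cos (θ t - a)).continuousOn
        · intro t ht
          exact (hcos t ht).ne'
      · exact (by fun_prop : Continuous fun t => c * Real.sin (θ t - φ t)).continuousOn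
    have hi1 : IntervalIntegrable (fun t => 1 / Real.cos (θ t - a) *
        (c * Real.sin (θ t - φ t))) volume 0 L := hc1.intervalIntegrable
    have hint1 : ∫ t in (0 : ℝ)..L, (1 / Real.cos (θ t - a) * (c * Real.sin (θ t - φ t))) = 0 := by
      rw [intervalIntegral.integral_eq_sub_of_hasDerivAt (f := fun t => Lam a (θ t))]
      · simp only [hper, sub_self]
      · intro t ht
        rw [uIcc_of_le hL.le] at ht
        exact (hasDerivAt_Lam (hcos t ht)).comp t (hθ t)
      · exact hi1
    have hcsc : Continuous fun t => Real.cos (φ t) := by fun_prop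
    have hsnc : Continuous fun t => Real.sin (φ t) := by fun_prop
    have hi2 : IntervalIntegrable (fun t => Real.cos (φ t)) volume 0 L := hcsc.intervalIntegrable _ _
    have hi3 : IntervalIntegrable (fun t => Real.sin (φ t)) volume 0 L := hsnc.intervalIntegrable _ _
    rw [hcongr, intervalIntegral.integral_add, intervalIntegral.integral_add,
      intervalIntegral.integral_const_mul, intervalIntegral.integral_const_mul,
      intervalIntegral.integral_const_mul, intervalIntegral.integral_const_mul, hint1,
      intervalIntegral.integral_sub, intervalIntegral.integral_add,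
      intervalIntegral.integral_const_mul, intervalIntegral.integral_const_mul,
      intervalIntegral.integral_const_mul, intervalIntegral.integral_const_mul, hF.cos0, hF.sin0]
    · ring
    · exact hi2.const_mul _
    · exact hi3.const_mul _
    · exact hi3.const_mul _
    · exact hi2.const_mul _
    · exact ((hi3.const_mul _).sub (hi2.const_mul _)).const_mul _
    · exact ((hi2.const_mul _).add (hi3.const_mul _)).const_mul _
    · exact (hi1.const_mul _).const_mul _
    · exact (((hi3.const_mul _).sub (hi2.const_mul _)).const_mul _).add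
        (((hi2.const_mul _).add (hi3.const_mul _)).const_mul _)
  linarith

end Pool.Agent.Q140.Bike
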