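import Pool.Agent.Q140.Bike.Rot

/-!
# The rotation number of a closed rear track is one, all cases
-/

open Set MeasureTheory

namespace Pool.Agent.Q140.Bike

variable {L : ℝ} {φ κ : ℝ → ℝ}

/-- Solutions are ordered. -/
theorem sol_mono {c : ℝ} (hc : 0 < c) {θ₁ θ₂ : ℝ → ℝ}
    (h1 : ∀ t, HasDerivAt θ₁ (c * Real.sin (θ₁ t - φ t)) t)
    (h2 : ∀ t, HasDerivAt θ₂ (c * Real.sin (θ₂ t - φ t)) t) {s t : ℝ} (hst : s ≤ t)
    (h : θ₁ s ≤ θ₂ s) : θ₁ t ≤ θ₂ t := by
  have key : ∀ τ, |Real.sin (θ₁ τ - φ τ) - Real.sin (θ₂ τ - φ τ)| ≤ |θ₁ τ - θ₂ τ| := by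
    intro τ
    have := Real.abs_sin_sub_sin_le (θ₁ τ - φ τ) (θ₂ τ - φ τ)
    rwa [show θ₁ τ - φ τ - (θ₂ τ - φ τ) = θ₁ τ - θ₂ τ by ring] at this
  have := le_zero_of (u := fun t => θ₁ t - θ₂ t) (K := c) (fun t => (h1 t).sub (h2 t)) hst
    (fun τ _ hτ => by
      have := (le_abs_self _).trans (key τ)
      rw [abs_of_pos hτ] at this
      nlinarith) (by linarith)
  linarith

theorem sol_strict {c : ℝ} (hc : 0 < c) {θ₁ θ₂ : ℝ → ℝ}
    (h1 : ∀ t, HasDerivAt θ₁ (c * Real.sin (θ₁ t - φ t)) t)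
    (h2 : ∀ t, HasDerivAt θ₂ (c * Real.sin (θ₂ t - φ t)) t) {s t : ℝ} (hst : s ≤ t)
    (h : θ₁ s < θ₂ s) : θ₁ t < θ₂ t := by
  have key : ∀ τ, |Real.sin (θ₁ τ - φ τ) - Real.sin (θ₂ τ - φ τ)| ≤ |θ₁ τ - θ₂ τ| := by
    intro τ
    have := Real.abs_sin_sub_sin_le (θ₁ τ - φ τ) (θ₂ τ - φ τ)
    rwa [show θ₁ τ - φ τ - (θ₂ τ - φ τ) = θ₁ τ - θ₂ τ by ring] at this
  have := lt_zero_of (u := fun t => θ₁ t - θ₂ t) (K := c) (fun t => (h1 t).sub (h2 t)) hst
    (fun τ _ hτ => by
      have := (le_abs_self _).trans (key τ)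
      rw [abs_of_neg hτ] at this
      nlinarith) (by linarith)
  linarith

/-- A solution whose direction closes up after one period closes up forever. -/
theorem sol_per (hF : Front L φ κ) {c : ℝ} (hc : 0 < c) {θ : ℝ → ℝ}
    (hθ : ∀ t, HasDerivAt θ (c * Real.sin (θ t - φ t)) t) {k : ℤ}
    (hk : θ L = θ 0 + k * (2 * Real.pi)) {t : ℝ} (ht : 0 ≤ t) :
    θ (t + L) = θ t + k * (2 * Real.pi) := by
  have h1 : ∀ t, HasDerivAt (fun t => θ (t + L)) (c * Real.sin (θ (t + L) - φ t)) t := by
    intro t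
    have := HasDerivAt.comp_add_const t L (hθ (t + L))
    rwa [hF.per, show θ (t + L) - (φ t + 2 * Real.pi) = θ (t + L) - φ t - 2 * Real.pi by ring,
      Real.sin_sub_two_pi] at this
  have h2 : ∀ t, HasDerivAt (fun t => θ t + k * (2 * Real.pi))
      (c * Real.sin (θ t + k * (2 * Real.pi) - φ t)) t := by
    intro t
    have := (hθ t).add_const (k * (2 * Real.pi))
    rwa [show θ t + k * (2 * Real.pi) - φ t = θ t - φ t + k * (2 * Real.pi) by ring,
      Real.sin_add_int_mul_two_pi]
  apply le_antisymm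
  · exact sol_mono hc h1 h2 ht (by simp [hk])
  · exact sol_mono hc h2 h1 ht (by simp [hk])

/-- A passage of `α` from `(2j+1)π` down to `2jπ` takes more than `π` of the tangent angle. -/
theorem pass (hF : Front L φ κ) {c : ℝ} (hc : 0 < c) {θ : ℝ → ℝ}
    (hθ : ∀ t, HasDerivAt θ (c * Real.sin (θ t - φ t)) t) {s t : ℝ} (hst : s < t) {j : ℤ}
    (hs : θ s - φ s = (2 * j + 1) * Real.pi) (ht : θ t - φ t = 2 * j * Real.pi) :
    Real.pi < φ t - φ s := by
  have hα : ∀ t, HasDerivAt (fun t => θ t - φ t) (c * Real.sin (θ t - φ t) - κ t) t := fun t =>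
    (hθ t).sub (hF.deriv t)
  have hθc : Continuous θ := continuous_iff_continuousAt.2 fun t => (hθ t).continuousAt
  have inc : StrictMonoOn θ (Icc s t) := by
    apply strictMonoOn_of_deriv_pos (convex_Icc s t) hθc.continuousOn
    intro τ hτ
    rw [interior_Icc] at hτ
    rw [(hθ τ).deriv]
    apply mul_pos hc
    have h1 : θ τ - φ τ < (2 * j + 1) * Real.pi := by
      have := cross hF hα hc hτ.1 (m := 2 * j + 1) (by rw [hs]; push_cast; exact le_rfl)
      simpa using this
    have h2 : 2 * j * Real.pi < θ τ - φ τ := by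
      by_contra hn
      push Not at hn
      have := cross hF hα hc hτ.2 (m := 2 * j) (by push_cast; exact hn)
      rw [ht] at this
      push_cast at this
      exact lt_irrefl _ this
    have h3 : Real.sin (θ τ - φ τ) = Real.sin (θ τ - φ τ - 2 * j * Real.pi) := by
      rw [show θ τ - φ τ - 2 * j * Real.pi = θ τ - φ τ - j * (2 * Real.pi) by ring,
        Real.sin_sub_int_mul_two_pi]
    rw [h3]
    apply Real.sin_pos_of_pos_of_lt_pi <;> linarith
  have h4 := inc ⟨le_rfl, hst.le⟩ ⟨hst.le, le_rfl⟩ hst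
  linarith

/-- The rotation number of a closed rear track of a convex front track is one. -/
theorem rot_one (hF : Front L φ κ) {c : ℝ} (hc : 0 < c) {θ : ℝ → ℝ}
    (hθ : ∀ t, HasDerivAt θ (c * Real.sin (θ t - φ t)) t) {k : ℤ}
    (hk : θ L = θ 0 + k * (2 * Real.pi)) : k = 1 := by
  have hpi := Real.pi_pos
  have hL := hF.pos
  set α : ℝ → ℝ := fun t => θ t - φ t with hαd
  have hα : ∀ t, HasDerivAt α (c * Real.sin (α t) - κ t) t := fun t =>
    (hθ t).sub (hF.deriv t)
  have hαc : Continuous α := continuous_iff_continuousAt.2 fun t => (hα t).continuousAt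
  have hαL : ∀ t, 0 ≤ t → α (t + L) = α t + (k - 1) * (2 * Real.pi) := by
    intro t ht
    simp only [hαd]
    rw [sol_per hF hc hθ hk ht, hF.per]
    ring
  have hα1 : α L = α 0 + (k - 1) * (2 * Real.pi) := by
    have := hαL 0 le_rfl; rwa [zero_add] at this
  rcases lt_trichotomy k 1 with hk1 | hk1 | hk1
  · exfalso
    -- a crossing of an odd multiple of `π`
    set j : ℤ := ⌊(α 0 / Real.pi - 1) / 2⌋ with hj
    have hj1 : (2 * j + 1) * Real.pi ≤ α 0 := by
      have := Int.floor_le ((α 0 / Real.pi - 1) / 2)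
      rw [← hj] at this
      have h2 : (2 * j + 1 : ℝ) ≤ α 0 / Real.pi := by linarith
      rwa [le_div_iff₀ hpi] at h2
    have hj2 : α 0 - 2 * Real.pi < (2 * j + 1) * Real.pi := by
      have := Int.lt_floor_add_one ((α 0 / Real.pi - 1) / 2)
      rw [← hj] at this
      have h2 : α 0 / Real.pi < (2 * j + 3 : ℝ) := by linarith
      rw [div_lt_iff₀ hpi] at h2
      linarith
    have hk0 : (k : ℝ) ≤ 0 := by exact_mod_cast Int.lt_add_one_iff.1 hk1
    have hα1' : α L ≤ α 0 - 2 * Real.pi := by rw [hα1]; nlinarith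
    obtain ⟨ta, hta, hαta⟩ : ∃ t ∈ Icc (0 : ℝ) L, α t = (2 * j + 1) * Real.pi :=
      intermediate_value_Icc' hL.le hαc.continuousOn ⟨by linarith, hj1⟩
    rcases Int.lt_or_eq_of_le (Int.lt_add_one_iff.1 hk1 : k ≤ 0) with hk2 | hk2
    · -- `k ≤ -1`
      have hk3 : (k : ℝ) ≤ -1 := by
        have : k ≤ -1 := by omega
        exact_mod_cast this
      have hend : α (ta + L) ≤ (2 * j - 3) * Real.pi := by
        rw [hαL ta hta.1, hαta]; nlinarith
      have htaL : ta ≤ ta + L := by linarith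
      have ivt : ∀ y, (2 * j - 3) * Real.pi ≤ y → y ≤ (2 * j + 1) * Real.pi →
          ∃ t ∈ Icc ta (ta + L), α t = y := fun y h1 h2 =>
        intermediate_value_Icc' htaL hαc.continuousOn ⟨hend.trans h1, by rw [hαta]; exact h2⟩
      obtain ⟨tb, htb, hαtb⟩ := ivt (2 * j * Real.pi) (by nlinarith) (by nlinarith)
      obtain ⟨tc, htc, hαtc⟩ := ivt ((2 * j - 1) * Real.pi) (by nlinarith) (by nlinarith)
      obtain ⟨td, htd, hαtd⟩ := ivt ((2 * j - 2) * Real.pi) (by nlinarith) (by nlinarith)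
      have hab : ta < tb := lt_of_le_of_ne htb.1 (fun h => by
        rw [← h, hαta] at hαtb; nlinarith)
      have hbc : tb ≤ tc := by
        by_contra hn
        push Not at hn
        have := cross_le hF hα hc hn.le (m := 2 * j - 1) (by rw [hαtc]; push_cast; exact le_rfl)
        rw [hαtb] at this
        push_cast at this
        nlinarith
      have hcd : tc < td := by
        by_contra hn
        push Not at hn
        have := cross_le hF hα hc hn (m := 2 * j - 2) (by rw [hαtd]; push_cast; exact le_rfl)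
        rw [hαtc] at this
        push_cast at this
        nlinarith
      have p1 := pass hF hc hθ hab (j := j) hαta hαtb
      have p2 := pass hF hc hθ hcd (j := j - 1)
        (by push_cast; rw [show θ tc - φ tc = α tc from rfl, hαtc]; ring)
        (by push_cast; rw [show θ td - φ td = α td from rfl, hαtd]; ring)
      have p3 := hF.strict.monotone hbc
      have p4 := hF.strict.monotone htd.2
      rw [hF.per] at p4
      linarith
    · -- `k = 0`
      subst hk2
      refine no_zero (hF.shift ta) hc (θ := fun t => θ (t + ta) - j * (2 * Real.pi)) ?_ ?_ ?_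
      · intro t
        have h1 := (HasDerivAt.comp_add_const t ta (hθ (t + ta))).sub_const (j * (2 * Real.pi))
        rwa [show θ (t + ta) - j * (2 * Real.pi) - φ (t + ta) =
          θ (t + ta) - φ (t + ta) - j * (2 * Real.pi) by ring, Real.sin_sub_int_mul_two_pi]
      · have := sol_per hF hc hθ hk hta.1
        simp only [zero_add]
        rw [add_comm L ta, this]
        simp
      · simp only [zero_add]
        have : θ ta - φ ta = (2 * j + 1) * Real.pi := hαta
        linarith
  · exact hk1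
  · exfalso
    set m : ℤ := ⌈α 0 / Real.pi⌉ with hm
    have hm1 : α 0 ≤ m * Real.pi := by
      have := Int.le_ceil (α 0 / Real.pi)
      rwa [← hm, div_le_iff₀ hpi] at this
    have hm2 : m * Real.pi < α 0 + Real.pi := by
      have := Int.ceil_lt_add_one (α 0 / Real.pi)
      rw [← hm] at this
      have h2 : (m : ℝ) - 1 < α 0 / Real.pi := by linarith
      rw [lt_div_iff₀ hpi] at h2
      linarith
    have h3 := cross_le hF hα hc hL.le hm1
    rw [hα1] at h3
    have hk2 : (2 : ℝ) ≤ k := by exact_mod_cast (by omega : (2 : ℤ) ≤ k)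
    nlinarith

end Pool.Agent.Q140.Bike
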