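import Pool.Agent.Q140.Bike.Mono

/-!
# The transition: closed solutions as `c` varies
-/

open Set MeasureTheory
open scoped NNReal Topology

namespace Pool.Agent.Q140.Bike

variable {L : ℝ} {φ κ : ℝ → ℝ}

/-- `θ` solves the angle equation. -/
def Sol (φ : ℝ → ℝ) (c : ℝ) (θ : ℝ → ℝ) : Prop :=
  ∀ t, HasDerivAt θ (c * Real.sin (θ t - φ t)) t

/-- There is a closed solution. -/
def HasClosed (L : ℝ) (φ : ℝ → ℝ) (c : ℝ) : Prop :=
  ∃ θ, Sol φ c θ ∧ ∃ k : ℤ, θ L = θ 0 + k * (2 * Real.pi)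

theorem Sol.shift {c : ℝ} {θ : ℝ → ℝ} (h : Sol φ c θ) (n : ℤ) :
    Sol φ c (fun t => θ t + n * (2 * Real.pi)) := by
  intro t
  have := (h t).add_const (n * (2 * Real.pi))
  rwa [show θ t + n * (2 * Real.pi) - φ t = θ t - φ t + n * (2 * Real.pi) by ring,
    Real.sin_add_int_mul_two_pi]

/-- A closed solution can be normalised so that `0 < α < π`. -/
theorem closed_normal (hF : Front L φ κ) {c : ℝ} (hc : 0 < c) (h : HasClosed L φ c) :
    ∃ θ, Sol φ c θ ∧ θ L = θ 0 + 2 * Real.pi ∧ ∀ t, 0 ≤ t → 0 < θ t - φ t ∧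
      θ t - φ t < Real.pi := by
  have hpi := Real.pi_pos
  have hL := hF.pos
  obtain ⟨θ, hθ, k, hk⟩ := h
  have hk1 : k = 1 := rot_one hF hc hθ hk
  subst hk1
  have hα : ∀ t, HasDerivAt (fun t => θ t - φ t) (c * Real.sin (θ t - φ t) - κ t) t := fun t =>
    (hθ t).sub (hF.deriv t)
  have hper : ∀ t, 0 ≤ t → θ (t + L) - φ (t + L) = θ t - φ t := by
    intro t ht
    rw [sol_per hF hc hθ hk ht, hF.per]
    push_cast
    ring
  have hne : ∀ (m : ℤ) t, 0 ≤ t → θ t - φ t ≠ m * Real.pi := by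
    intro m t ht he
    have h1 := cross hF hα hc (show t < t + L by linarith) (m := m) he.le
    rw [hper t ht, he] at h1
    exact lt_irrefl _ h1
  have hcont : Continuous (fun t => θ t - φ t) :=
    continuous_iff_continuousAt.2 fun t => (hα t).continuousAt
  set m : ℤ := ⌊(θ 0 - φ 0) / Real.pi⌋ with hm
  have hm1 : m * Real.pi < θ 0 - φ 0 := by
    have := Int.floor_le ((θ 0 - φ 0) / Real.pi)
    rw [← hm, le_div_iff₀ hpi] at this
    exact lt_of_le_of_ne this (hne m 0 le_rfl).symm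
  have hm2 : θ 0 - φ 0 < (m + 1) * Real.pi := by
    have := Int.lt_floor_add_one ((θ 0 - φ 0) / Real.pi)
    rwa [← hm, div_lt_iff₀ hpi] at this
  have hrange : ∀ t, 0 ≤ t → m * Real.pi < θ t - φ t ∧ θ t - φ t < (m + 1) * Real.pi := by
    intro t ht
    constructor
    · by_contra hn
      push Not at hn
      obtain ⟨s, hs, hs2⟩ := intermediate_value_Icc' ht hcont.continuousOn ⟨hn, hm1.le⟩
      exact hne m s hs.1 hs2
    · by_contra hn
      push Not at hn
      obtain ⟨s, hs, hs2⟩ := intermediate_value_Icc ht hcont.continuousOn ⟨hm2.le, hn⟩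
      exact hne (m + 1) s hs.1 (by push_cast; exact hs2)
  rcases Int.even_or_odd m with hev | hodd
  · obtain ⟨n, hn⟩ := hev
    refine ⟨fun t => θ t + (-n : ℤ) * (2 * Real.pi), Sol.shift hθ (-n), ?_, ?_⟩
    · simp only [hk]; push_cast; ring
    · intro t ht
      obtain ⟨h1, h2⟩ := hrange t ht
      rw [hn] at h1 h2
      push_cast at h1 h2 ⊢
      constructor <;> linarith
  · exfalso
    obtain ⟨n, hn⟩ := hodd
    -- `sin α < 0` on `[0, L]`
    have hneg : ∀ t, 0 ≤ t → Real.sin (θ t - φ t) < 0 := by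
      intro t ht
      obtain ⟨h1, h2⟩ := hrange t ht
      rw [hn] at h1 h2
      push_cast at h1 h2
      rw [show θ t - φ t = (θ t - φ t - (n + 1 : ℤ) * (2 * Real.pi)) + (n + 1 : ℤ) * (2 * Real.pi)
        by ring, Real.sin_add_int_mul_two_pi]
      apply Real.sin_neg_of_neg_of_neg_pi_lt
      · push_cast; linarith
      · push_cast; linarith
    obtain ⟨x, hx, hxe⟩ := exists_hasDerivAt_eq_slope (fun t => θ t - φ t)
      (fun t => c * Real.sin (θ t - φ t) - κ t) hL hcont.continuousOn (fun t _ => hα t)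
    have h1 := hper 0 le_rfl
    rw [zero_add] at h1
    rw [h1, sub_self, zero_div] at hxe
    have h2 := hneg x hx.1.le
    have h3 := hF.nonneg x
    nlinarith

/-- Lower bound for `c` when there is a closed solution. -/
theorem closed_bound (hF : Front L φ κ) {c : ℝ} (hc : 0 < c) (h : HasClosed L φ c) :
    2 * Real.pi ≤ c * L := by
  have hL := hF.pos
  obtain ⟨θ, hθ, hk, -⟩ := closed_normal hF hc h
  have hθc : Continuous θ := continuous_iff_continuousAt.2 fun t => (hθ t).continuousAt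
  obtain ⟨x, hx, hxe⟩ := exists_hasDerivAt_eq_slope θ (fun t => c * Real.sin (θ t - φ t)) hL
    hθc.continuousOn (fun t _ => hθ t)
  rw [hk, sub_zero, eq_div_iff hL.ne'] at hxe
  have h1 := Real.sin_le_one (θ x - φ x)
  have h2 : c * Real.sin (θ x - φ x) * L ≤ c * 1 * L :=
    mul_le_mul_of_nonneg_right (mul_le_mul_of_nonneg_left h1 hc.le) hL.le
  linarith

/-- Values of the time-`L` map: a continuous, monotone family. -/
theorem exists_flow (hF : Front L φ κ) (hκ : Continuous κ) {c : ℝ} (hc : 0 < c) :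
    ∃ Φ : ℝ → ℝ → ℝ, (∀ x, Φ x 0 = x) ∧ (∀ x, Sol φ c (Φ x)) ∧
      Continuous (fun x => Φ x L) := by
  choose Φ h0 h1 using fun x => exists_sol hF hκ hc x
  refine ⟨Φ, h0, h1, ?_⟩
  have : LipschitzWith (Real.toNNReal (Real.exp (c * L))) (fun x => Φ x L) := by
    apply LipschitzWith.of_dist_le_mul
    intro x y
    rw [Real.coe_toNNReal _ (Real.exp_pos _).le, mul_comm]
    have := sol_dist hc (h1 x) (h1 y) hF.pos.le
    rwa [h0, h0] at this
  exact this.continuous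

/-- The solution with `α 0 = m π` ends strictly below. -/
theorem end_lt (hF : Front L φ κ) {c : ℝ} (hc : 0 < c) {θ : ℝ → ℝ} (hθ : Sol φ c θ) {m : ℤ}
    (h0 : θ 0 = φ 0 + m * Real.pi) : θ L < θ 0 + 2 * Real.pi := by
  have hα : ∀ t, HasDerivAt (fun t => θ t - φ t) (c * Real.sin (θ t - φ t) - κ t) t := fun t =>
    (hθ t).sub (hF.deriv t)
  have h1 := cross hF hα hc hF.pos (m := m) (by simp [h0])
  have h2 := hF.per 0
  rw [zero_add] at h2
  rw [h2] at h1
  linarith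

/-- If some solution starting in `(φ 0, φ 0 + π)` ends at or above its start plus `2π`, there is
a closed solution between it and `φ 0 + π`. -/
theorem exists_closed_above (hF : Front L φ κ) (hκ : Continuous κ) {c : ℝ} (hc : 0 < c)
    {θ : ℝ → ℝ} (hθ : Sol φ c θ) (h1 : θ 0 < φ 0 + Real.pi)
    (h2 : θ 0 + 2 * Real.pi ≤ θ L) :
    ∃ ψ, Sol φ c ψ ∧ ψ L = ψ 0 + 2 * Real.pi ∧ θ 0 ≤ ψ 0 ∧ ψ 0 < φ 0 + Real.pi := by
  obtain ⟨Φ, hΦ0, hΦ, hΦc⟩ := exists_flow hF hκ hc
  have e1 : 0 ≤ Φ (θ 0) L - θ 0 - 2 * Real.pi := by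
    have := sol_mono hc hθ (hΦ (θ 0)) hF.pos.le (by rw [hΦ0])
    linarith
  have e2 : Φ (φ 0 + Real.pi) L - (φ 0 + Real.pi) - 2 * Real.pi < 0 := by
    have := end_lt hF hc (hΦ (φ 0 + Real.pi)) (m := 1) (by rw [hΦ0]; simp)
    rw [hΦ0] at this
    linarith
  obtain ⟨x, hx, hxe⟩ := intermediate_value_Icc' h1.le
    (f := fun x => Φ x L - x - 2 * Real.pi)
    ((hΦc.sub continuous_id).sub continuous_const).continuousOn ⟨e2.le, e1⟩
  have hx2 : x < φ 0 + Real.pi := lt_of_le_of_ne hx.2 (fun h => by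
    rw [h] at hxe; simp only at hxe; linarith)
  refine ⟨Φ x, hΦ x, ?_, ?_, ?_⟩
  · simp only at hxe
    rw [hΦ0]; linarith
  · rw [hΦ0]; exact hx.1
  · rw [hΦ0]; exact hx2

/-- For large `c` there is a closed solution. -/
theorem closed_of_large (hF : Front L φ κ) (hκ : Continuous κ) {c : ℝ} (hc : 0 < c)
    (hb : ∀ t, κ t < c) : HasClosed L φ c := by
  have hpi := Real.pi_pos
  obtain ⟨θ, h0, hθ⟩ := exists_sol hF hκ hc (φ 0 + Real.pi / 2)
  -- `α ≥ π/2` is preserved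
  have hα : ∀ t, HasDerivAt (fun t => θ t - φ t) (c * Real.sin (θ t - φ t) - κ t) t := fun t =>
    (hθ t).sub (hF.deriv t)
  have hcont : Continuous (fun t => θ t - φ t) :=
    continuous_iff_continuousAt.2 fun t => (hα t).continuousAt
  have hge : ∀ t, 0 ≤ t → Real.pi / 2 ≤ θ t - φ t := by
    intro t ht
    have := le_zero_of (u := fun t => Real.pi / 2 - (θ t - φ t)) (K := c)
      (fun t => (hα t).const_sub _) ht (fun τ hτ hτ0 => by
        have hs : 1 - Real.sin (θ τ - φ τ) ≤ Real.pi / 2 - (θ τ - φ τ) := by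
          have h3 : |Real.sin (Real.pi / 2) - Real.sin (θ τ - φ τ)| ≤
            |Real.pi / 2 - (θ τ - φ τ)| := Real.abs_sin_sub_sin_le _ _
          rw [Real.sin_pi_div_two, abs_of_pos hτ0] at h3
          exact (le_abs_self _).trans h3
        have h4 := hb τ
        nlinarith) (by simp [h0])
    linarith
  obtain ⟨ψ, hψ, h1, -, -⟩ := exists_closed_above hF hκ hc hθ
    (by rw [h0]; linarith) (by
      have h2 := hge L hF.pos.le
      have h3 := hF.per 0
      rw [zero_add] at h3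
      rw [h3] at h2
      rw [h0]
      linarith)
  exact ⟨ψ, hψ, 1, by rw [h1]; push_cast; ring⟩

/-- Two closed solutions and a non-closed one for every larger `c`. -/
theorem three_of_closed (hF : Front L φ κ) (hκ : Continuous κ) {c c₁ : ℝ} (hc1 : 0 < c₁)
    (hcc : c₁ < c) (h : HasClosed L φ c₁) :
    ∃ θa θb θc, Sol φ c θa ∧ Sol φ c θb ∧ Sol φ c θc ∧
      θa L = θa 0 + 2 * Real.pi ∧ θb L = θb 0 + 2 * Real.pi ∧
      θa 0 < θb 0 ∧ θb 0 < θa 0 + Real.pi ∧
      0 < θc L - θc 0 - 2 * Real.pi ∧ θc L - θc 0 - 2 * Real.pi < Real.pi := by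
  have hpi := Real.pi_pos
  have hc : 0 < c := hc1.trans hcc
  obtain ⟨θ₁, hθ₁, hk, hr⟩ := closed_normal hF hc1 h
  obtain ⟨Φ, hΦ0, hΦ, hΦc⟩ := exists_flow hF hκ hc
  have hr0 := hr 0 le_rfl
  set x1 := θ₁ 0 with hx1
  have hcmp : x1 + 2 * Real.pi < Φ x1 L := by
    rw [← hk]
    exact comparison hc1 hcc (hΦ x1) hθ₁ (fun t ht => Real.sin_pos_of_pos_of_lt_pi
      (hr t ht).1 (hr t ht).2) (by rw [hΦ0]) hF.pos
  have e0 : Φ (φ 0) L - φ 0 - 2 * Real.pi < 0 := by
    have := end_lt hF hc (hΦ (φ 0)) (m := 0) (by rw [hΦ0]; simp)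
    rw [hΦ0] at this
    linarith
  have e2 : Φ (φ 0 + Real.pi) L - (φ 0 + Real.pi) - 2 * Real.pi < 0 := by
    have := end_lt hF hc (hΦ (φ 0 + Real.pi)) (m := 1) (by rw [hΦ0]; simp)
    rw [hΦ0] at this
    linarith
  have hcon : Continuous (fun x => Φ x L - x - 2 * Real.pi) :=
    (hΦc.sub continuous_id).sub continuous_const
  obtain ⟨xa, hxa, hxae⟩ := intermediate_value_Icc (by linarith : φ 0 ≤ x1)
    (f := fun x => Φ x L - x - 2 * Real.pi) hcon.continuousOn
    (show (0 : ℝ) ∈ _ from ⟨e0.le, by linarith⟩)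
  obtain ⟨xb, hxb, hxbe⟩ := intermediate_value_Icc' (by linarith : x1 ≤ φ 0 + Real.pi)
    (f := fun x => Φ x L - x - 2 * Real.pi) hcon.continuousOn
    (show (0 : ℝ) ∈ _ from ⟨e2.le, by linarith⟩)
  simp only at hxae hxbe
  have hxa1 : xa < x1 := lt_of_le_of_ne hxa.2 (fun h => by rw [h] at hxae; linarith)
  have hxb1 : x1 < xb := lt_of_le_of_ne hxb.1 (fun h => by rw [← h] at hxbe; linarith)
  have hxa0 : φ 0 < xa := lt_of_le_of_ne hxa.1 (fun h => by rw [← h] at hxae; linarith)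
  have hxb2 : xb < φ 0 + Real.pi := lt_of_le_of_ne hxb.2 (fun h => by rw [h] at hxbe; linarith)
  refine ⟨Φ xa, Φ xb, Φ x1, hΦ _, hΦ _, hΦ _, ?_, ?_, ?_, ?_, ?_, ?_⟩
  · rw [hΦ0]; linarith
  · rw [hΦ0]; linarith
  · rw [hΦ0, hΦ0]; linarith
  · rw [hΦ0, hΦ0]; linarith
  · rw [hΦ0]; linarith
  · rw [hΦ0]
    have := sol_mono hc (hΦ x1) (hΦ xb) hF.pos.le (by rw [hΦ0, hΦ0]; exact hxb1.le)
    linarith

end Pool.Agent.Q140.Bike
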